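import Pool.Agent.H18.RG.ClsA
import Pool.Agent.H76.VC.Ab

/-!
# [RG4c] Quotients by isolators are in `C` (step (5))

`tf`: `hom` and `b (x ^ k) = k * b x`. `root`: `Commute (x ^ k) y` gives `(y x y⁻¹) ^ k = x ^ k`. `inj`: compose with the injective homomorphism (images
of subgroups for `cen`); `C`: `Inherits.of_injective`. `quot`: let `I = f.ker = {c | Pw A c}`. By `cen` (`K = ⊤`) `A` is central, and `I` is central
(`root`). (1) If `z = [x, y] ∈ I` then `z = 1`: otherwise take `b` for `z` (defined and additive on all of `G`), `b [x, y] = 0`. So `f x` and `f y`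
commute iff `x` and `y` commute. (2) `root` for `Q`: `f x ^ k = f y ^ k`: `f (x ^ k)` commutes with `f y`, so `x ^ k` commutes with `y`, so `x` does, so
`(x * y⁻¹) ^ k ∈ I`, `Pw A (x * y⁻¹)`, `f x = f y`. (3) `cen` for `Q`: preimages. (4) `hom` for `Q`: `f x ≠ 1`. Let `E` be the set of the functions
`b : G → ℚ` which are additive on the centraliser `Z` of `x`, `V = E → ℚ` (a vector space), `ev g = fun b => b g`. `ev` is additive on `Z`, and
`ev y ≠ 0` for all `y ≠ 1` of the form `x ^ n * c`, `c ∈ I`, `n : ℤ` (`hom` for `y`; the centraliser of `y` contains `Z`). `ev x` is not in the span `S` of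
`ev I`: otherwise `N • ev x = ev c`, `N ≠ 0`, `c ∈ I` (elements of the span: clear denominators), so `x ^ N * c⁻¹ = 1`, `Pw A x`. So there is a linear
form on `V` which vanishes on `S` and is not `0` at `ev x`; its composition with `ev` is the pullback of a function on `Q` (choose
preimages: `b (g * c) = b g` for `g ∈ Z`, `c ∈ I`). (5) `C Q`: the same with `Z = G` (`I` is central): `ev : G → V` is a homomorphism, injective on `I`;
let `π` be a linear projection of `V` onto the span `S` of `ev I`, `K` = the kernel of `π ∘ ev`. `K ∩ I = 1`, so `f` is injective on `K` and `f(K)` is in `C`. For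
every `g : G` some power `g ^ N`, `N ≠ 0`, is in `K I` (`π (ev g)` is in the span). So for every finitely generated `Q' ≤ Q` the subgroup
`f(K) ∩ Q'` is normal with commutative (`S` is commutative) torsion finitely generated quotient, so of finite index
(`CommGroup.finite_of_fg_torsion`). `Inherits.index`, `Pool.Agent.H76.VC.of_fg`.
-/

set_option autoImplicit false

namespace Pool.Agent.H18.RG

open Pool.Agent.H98.FJ Pool.Agent.H50.GN

/-- an overgroup: `F` normal, in the class, with commutative torsion quotient -/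
private theorem up {C : (G : Type) → [Group G] → Prop} (hC : Inherits C) {Q : Type} [Group Q]
    (F : Subgroup Q) (hF : C F) (hnF : F.Normal) (hcomm : ∀ x y : Q, x * y * x⁻¹ * y⁻¹ ∈ F)
    (htor : ∀ x : Q, ∃ N : ℕ, N ≠ 0 ∧ x ^ N ∈ F) : C Q := by
  refine Pool.Agent.H76.VC.of_fg hC Q fun H hH => ?_
  have hn' : (F.subgroupOf H).Normal := hnF.subgroupOf H
  let cg : CommGroup (H ⧸ F.subgroupOf H) :=
    { (inferInstance : Group (H ⧸ F.subgroupOf H)) with
      mul_comm := by
        intro a b
        obtain ⟨x, rfl⟩ := QuotientGroup.mk_surjective a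
        obtain ⟨y, rfl⟩ := QuotientGroup.mk_surjective b
        rw [← QuotientGroup.mk_mul, ← QuotientGroup.mk_mul, QuotientGroup.eq]
        rw [Subgroup.mem_subgroupOf]
        have h := hcomm (y : Q)⁻¹ (x : Q)⁻¹
        have e : (((x * y)⁻¹ * (y * x) : H) : Q) = (y : Q)⁻¹ * (x : Q)⁻¹ * ((y : Q)⁻¹)⁻¹ * ((x : Q)⁻¹)⁻¹ := by
          push_cast
          group
        rw [e]
        exact h }
  have hfg : Group.FG H := (Group.fg_iff_subgroup_fg H).2 hH
  have hfgq : Group.FG (H ⧸ F.subgroupOf H) := by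
    have h := hfg
    exact Group.fg_of_surjective (f := QuotientGroup.mk' (F.subgroupOf H))
      (QuotientGroup.mk'_surjective _)
  have htorq : IsMulTorsion (H ⧸ F.subgroupOf H) := by
    intro a
    obtain ⟨x, rfl⟩ := QuotientGroup.mk_surjective a
    obtain ⟨N, hN, hx⟩ := htor (x : Q)
    rw [isOfFinOrder_iff_pow_eq_one]
    refine ⟨N, Nat.pos_of_ne_zero hN, ?_⟩
    rw [← QuotientGroup.mk_pow, QuotientGroup.eq_one_iff, Subgroup.mem_subgroupOf]
    push_cast
    exact hx
  have hfin : Finite (H ⧸ F.subgroupOf H) := CommGroup.finite_of_fg_isMulTorsion _ htorq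
  have hfi : (F.subgroupOf H).FiniteIndex := Subgroup.finiteIndex_of_finite_quotient
  refine hC.index H (F.subgroupOf H) hfi ?_
  refine hC.of_injective (G := F.subgroupOf H) (H := F)
    ({ toFun := fun x => ⟨(x : H), x.2⟩
       map_one' := rfl
       map_mul' := fun _ _ => rfl } : F.subgroupOf H →* F) ?_ hF
  intro x y hxy
  have h1 : ((x : H) : Q) = ((y : H) : Q) := congrArg (fun z : F => (z : Q)) hxy
  exact Subtype.ext (Subtype.ext h1)

theorem C_quot {C : (G : Type) → [Group G] → Prop} (hC : Inherits C) {G Q : Type} [Group G] [Group Q] (hG : RR G)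
    (hCG : C G) (f : G →* Q) (hf : Function.Surjective f)
    (A : Subgroup G) (hA : Ab A) (hn : ∀ (g : G), ∀ a ∈ A, Pw A (g * a * g⁻¹)) (hk : ∀ c, f c = 1 ↔ Pw A c) : C Q := by
  obtain ⟨hcen, -⟩ := comm_of_quot hG f hf A hA hn hk
  -- the additive functions
  let E : Type := {b : G → ℚ // ∀ g h, b (g * h) = b g + b h}
  let ev : G → (E → ℚ) := fun g b => b.1 g
  have ev_mul : ∀ g h, ev (g * h) = ev g + ev h := fun g h => funext fun b => b.2 g h
  have ev_one : ev 1 = 0 := by
    have h := ev_mul 1 1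
    rw [one_mul] at h
    exact left_eq_add.1 h
  have ev_inj : ∀ c, f c = 1 → ev c = 0 → c = 1 := by
    intro c hc h0
    by_contra hne
    obtain ⟨b, hb, hbc⟩ := hG.hom c hne
    have h1 := congrFun h0 (⟨b, fun g h => hb g h (hcen c hc g) (hcen c hc h)⟩ : E)
    exact hbc h1
  -- the span of the values on the kernel
  let B : AddSubgroup (E → ℚ) :=
    { carrier := {v | ∃ c, f c = 1 ∧ ev c = v}
      zero_mem' := ⟨1, map_one f, ev_one⟩
      add_mem' := by
        rintro u v ⟨c, hc, rfl⟩ ⟨d, hd, rfl⟩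
        exact ⟨c * d, by rw [map_mul, hc, hd, one_mul], ev_mul c d⟩
      neg_mem' := by
        rintro u ⟨c, hc, rfl⟩
        refine ⟨c⁻¹, by rw [map_inv, hc, inv_one], ?_⟩
        have h := ev_mul c⁻¹ c
        rw [inv_mul_cancel, ev_one] at h
        exact eq_neg_of_add_eq_zero_left h.symm }
  let S : Submodule ℚ (E → ℚ) := Submodule.span ℚ (B : Set (E → ℚ))
  obtain ⟨π, hπ⟩ := LinearMap.exists_extend (LinearMap.id : S →ₗ[ℚ] S)
  have hπS : ∀ v (hv : v ∈ S), π v = ⟨v, hv⟩ := fun v hv => by
    have h := LinearMap.congr_fun hπ ⟨v, hv⟩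
    exact h
  let ψ : G →* Multiplicative S :=
    { toFun := fun g => Multiplicative.ofAdd (π (ev g))
      map_one' := by rw [ev_one, map_zero]; rfl
      map_mul' := fun g h => by rw [ev_mul, map_add]; rfl }
  have hψ : ∀ g, ψ g = 1 ↔ π (ev g) = 0 := fun g => Iff.rfl
  let K : Subgroup G := ψ.ker
  have hK1 : ∀ c ∈ K, f c = 1 → c = 1 := by
    intro c hcK hc
    have h1 : π (ev c) = 0 := (hψ c).1 hcK
    have h2 : ev c ∈ S := Submodule.subset_span ⟨c, hc, rfl⟩
    rw [hπS _ h2] at h1
    exact ev_inj c hc (congrArg Subtype.val h1)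
  let φ : K →* Q := f.comp K.subtype
  have hφ : Function.Injective φ := by
    rw [injective_iff_map_eq_one]
    rintro ⟨c, hc⟩ h
    exact Subtype.ext (hK1 c hc h)
  have hCF : C φ.range := hC.iso K φ.range (MonoidHom.ofInjective hφ) (hC.sub G K hCG)
  have hmemF : ∀ g ∈ K, f g ∈ φ.range := fun g hg => ⟨⟨g, hg⟩, rfl⟩
  refine up hC φ.range hCF ?_ ?_ ?_
  · refine ⟨?_⟩
    rintro q ⟨⟨c, hc⟩, rfl⟩ p
    obtain ⟨g, rfl⟩ := hf p
    have h1 : g * c * g⁻¹ ∈ K := (inferInstance : ψ.ker.Normal).conj_mem c hc g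
    have h2 := hmemF _ h1
    rw [map_mul, map_mul, map_inv] at h2
    exact h2
  · intro x y
    obtain ⟨g, rfl⟩ := hf x
    obtain ⟨h, rfl⟩ := hf y
    have h1 : g * h * g⁻¹ * h⁻¹ ∈ K := by
      show ψ (g * h * g⁻¹ * h⁻¹) = 1
      rw [map_mul, map_mul, map_mul, map_inv, map_inv, mul_comm (ψ g) (ψ h)]
      group
    have h2 := hmemF _ h1
    rw [map_mul, map_mul, map_mul, map_inv, map_inv] at h2
    exact h2
  · intro x
    obtain ⟨g, rfl⟩ := hf x
    obtain ⟨N, hN, c, hc, hcN⟩ := mem_span_nat B (π (ev g) : E → ℚ) (π (ev g)).2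
    refine ⟨N, hN, ?_⟩
    have ev_pow : ∀ n : ℕ, ev (g ^ n) = n • ev g := by
      intro n
      induction n with
      | zero => rw [pow_zero, zero_smul, ev_one]
      | succ n ih => rw [pow_succ, ev_mul, ih, succ_nsmul]
    have h1 : g ^ N * c⁻¹ ∈ K := by
      show ψ (g ^ N * c⁻¹) = 1
      rw [map_mul, map_inv, mul_inv_eq_one]
      show Multiplicative.ofAdd (π (ev (g ^ N))) = Multiplicative.ofAdd (π (ev c))
      have h2 : ev c ∈ S := Submodule.subset_span ⟨c, hc, rfl⟩
      rw [ev_pow, map_nsmul, hπS _ h2]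
      congr 1
      refine Subtype.ext ?_
      exact hcN.symm
    have h3 := hmemF _ h1
    rw [map_mul, map_inv, hc, inv_one, mul_one, map_pow] at h3
    exact h3

end Pool.Agent.H18.RG
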