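import Pool.Agent.H18.RG.ClsB
import Pool.Agent.H18.RG.ClsC

/-!
# [RG4] The class `WR C` is stable
-/

set_option autoImplicit false

namespace Pool.Agent.H18.RG

open Pool.Agent.H98.FJ Pool.Agent.H50.GN

theorem cls_WR {C : (G : Type) → [Group G] → Prop} (hC : Inherits C) : Cls C (WR C) := by
  refine ⟨fun G _ h => h.2, fun G H _ _ f hf h => ⟨RR_inj f hf h.1, hC.of_injective f hf h.2⟩, ?_, ?_, ?_⟩
  · intro G _ hG x k hk hx
    exact hG.1.root x 1 k hk (by rw [hx, one_pow])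
  · intro G _ hG x y k hk h
    have h1 : (y * x * y⁻¹) ^ k = x ^ k := by
      rw [conj_pow, ← h.eq, mul_inv_cancel_right]
    have h2 := hG.1.root _ _ k hk h1
    show x * y = y * x
    rw [mul_inv_eq_iff_eq_mul] at h2
    exact h2.symm
  · rintro G Q _ _ f ⟨hR, hCG⟩ hf ⟨A, hA, hn, hk⟩
    exact ⟨RR_quot hR f hf A hA hn hk, C_quot hC hR hCG f hf A hA hn hk⟩

end Pool.Agent.H18.RG
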