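import Pool.Agent.H18.RG.Defs

/-!
# [RG4a] Central isolators: see the proof of `WR C` (all steps)

`tf`: `hom` and `b (x ^ k) = k * b x`. `root`: `Commute (x ^ k) y` gives `(y x y⁻¹) ^ k = x ^ k`. `inj`: compose with the injective homomorphism (images
of subgroups for `cen`); `C`: `Inherits.of_injective`. `quot`: let `I = f.ker = {c | Pw A c}`. By `cen` (`K = ⊤`) `A` is central, and `I` is central
(`root`). (1) If `z = [x, y] ∈ I` then `z = 1`: otherwise take `b` for `z` (defined and additive on all of `G`), `b [x, y] = 0`. So `f x` and `f y`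
commute iff `x` and `y` commute. (2) `root` for `Q`: `f x ^ k = f y ^ k`: `f (x ^ k)` commutes with `f y`, so `x ^ k` commutes with `y`, so `x` does, so
`(x * y⁻¹) ^ k ∈ I`, `Pw A (x * y⁻¹)`, `f x = f y`. (3) `cen` for `Q`: preimages. (4) `hom` for `Q`: `f x ≠ 1`. Let `E` be the set of the functions
`b : G → ℚ` which are additive on the centraliser `Z` of `x`, `V = E → ℚ` (a vector space), `ev g = fun b => b g`. `ev` is additive on `Z`, and
`ev y ≠ 0` for all `y ≠ 1` of the form `x ^ n * c`, `c ∈ I`, `n : ℤ` (`hom` for `y`; the centraliser of `y` contains `Z`). `ev x` is not in the span `S` of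
`ev I`: otherwise `N • ev x = ev c`, `N ≠ 0`, `c ∈ I` (elements of the span: clear denominators), so `x ^ N * c⁻¹ = 1`, `Pw A x`. So there is a linear
form on `V` which vanishes on `S` and is not `0` at `ev x`; its composition with `ev` is the pullback of a function on `Q` (choose
preimages: `b (g * c) = b g` for `g ∈ Z`, `c ∈ I`). (5) `C Q`: the same with `Z = G` (`I` is central): `ev : G → V` is a homomorphism, injective on `I`;
let `π` be a linear projection of `V` onto the span `S` of `ev I`, `K` = the kernel of `π ∘ ev`. `K ∩ I = 1`, so `f` is injective on `K` and `f(K)` is in `C`. For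
every `g : G` some power `g ^ N`, `N ≠ 0`, is in `K I` (`π (ev g)` is in the span). So for every finitely generated `Q' ≤ Q` the subgroup
`f(K) ∩ Q'` is normal with commutative (`S` is commutative) torsion finitely generated quotient, so of finite index
(`CommGroup.finite_of_fg_torsion`). `Inherits.index`, `Pool.Agent.H76.VC.of_fg`.
-/

set_option autoImplicit false

namespace Pool.Agent.H18.RG

open Pool.Agent.H98.FJ Pool.Agent.H50.GN

/-- clearing denominators in a span over `ℚ` -/
theorem mem_span_nat {V : Type} [AddCommGroup V] [Module ℚ V] (A : AddSubgroup V) (v : V)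
    (h : v ∈ Submodule.span ℚ (A : Set V)) : ∃ N : ℕ, N ≠ 0 ∧ N • v ∈ A := by
  induction h using Submodule.span_induction with
  | mem x hx => exact ⟨1, one_ne_zero, by rw [one_smul]; exact hx⟩
  | zero => exact ⟨1, one_ne_zero, by rw [smul_zero]; exact A.zero_mem⟩
  | add x y _ _ hx hy =>
    obtain ⟨M, hM, hxM⟩ := hx
    obtain ⟨N, hN, hyN⟩ := hy
    refine ⟨M * N, mul_ne_zero hM hN, ?_⟩
    rw [smul_add]
    refine A.add_mem ?_ ?_
    · rw [mul_comm, mul_smul]
      exact A.nsmul_mem hxM N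
    · rw [mul_smul]
      exact A.nsmul_mem hyN M
  | smul a x _ hx =>
    obtain ⟨N, hN, hxN⟩ := hx
    refine ⟨a.den * N, mul_ne_zero a.den_nz hN, ?_⟩
    have e : (a.den * N) • a • x = a.num • (N • x) := by
      rw [← Nat.cast_smul_eq_nsmul ℚ, ← Nat.cast_smul_eq_nsmul ℚ, ← Int.cast_smul_eq_zsmul ℚ,
        smul_smul, smul_smul]
      congr 1
      have h1 : (a.den : ℚ) * a = a.num := Rat.den_mul_eq_num a
      rw [Nat.cast_mul, ← h1]
      ring
    rw [e]
    exact A.zsmul_mem hxN _

/-- commutators in the kernel are trivial -/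
theorem comm_of_quot {G Q : Type} [Group G] [Group Q] (hG : RR G) (f : G →* Q) (hf : Function.Surjective f)
    (A : Subgroup G) (hA : Ab A) (hn : ∀ (g : G), ∀ a ∈ A, Pw A (g * a * g⁻¹)) (hk : ∀ c, f c = 1 ↔ Pw A c) :
    (∀ c, f c = 1 → ∀ g, c * g = g * c) ∧ ∀ x y, f x * f y = f y * f x → x * y = y * x := by
  have hcen : ∀ c, f c = 1 → ∀ g, c * g = g * c := by
    intro c hc g
    obtain ⟨k, hk0, hkA⟩ := (hk c).1 hc
    have h1 : c ^ k * g = g * c ^ k :=
      hG.cen ⊤ A le_top hA (fun g _ a ha => hn g a ha) _ hkA g (Subgroup.mem_top g)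
    have h2 : (g * c * g⁻¹) ^ k = c ^ k := by
      rw [conj_pow, ← h1, mul_inv_cancel_right]
    have h3 := hG.root _ _ k hk0 h2
    rw [mul_inv_eq_iff_eq_mul] at h3
    exact h3.symm
  refine ⟨hcen, fun x y hxy => ?_⟩
  have hz : f (x * y * x⁻¹ * y⁻¹) = 1 := by
    rw [map_mul, map_mul, map_mul, map_inv, map_inv, hxy, mul_inv_cancel_right, mul_inv_cancel]
  have hzc := hcen _ hz
  by_contra hne
  have hz1 : x * y * x⁻¹ * y⁻¹ ≠ 1 := by
    intro h
    apply hne
    rw [mul_inv_eq_one, mul_inv_eq_iff_eq_mul] at h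
    exact h
  obtain ⟨b, hb, hbz⟩ := hG.hom _ hz1
  have hadd : ∀ g h : G, b (g * h) = b g + b h := fun g h => hb g h (hzc g) (hzc h)
  have hb1 : b 1 = 0 := by
    have h := hadd 1 1
    rw [one_mul] at h
    linarith
  have hinv : ∀ g : G, b g⁻¹ = -b g := by
    intro g
    have h := hadd g g⁻¹
    rw [mul_inv_cancel, hb1] at h
    linarith
  apply hbz
  rw [hadd, hadd, hadd, hinv, hinv]
  ring

theorem RR_inj {G H : Type} [Group G] [Group H] (f : G →* H) (hf : Function.Injective f) (h : RR H) : RR G := by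
  refine ⟨fun x y k hk hxy => ?_, fun K A hAK hA hn a ha g hg => ?_, fun x hx => ?_⟩
  · apply hf
    apply h.root _ _ k hk
    rw [← map_pow, ← map_pow, hxy]
  · apply hf
    rw [map_mul, map_mul]
    refine h.cen (K.map f) (A.map f) (Subgroup.map_mono hAK) ?_ ?_ (f a) (Subgroup.mem_map_of_mem f ha)
      (f g) (Subgroup.mem_map_of_mem f hg)
    · rintro _ ⟨a1, ha1, rfl⟩ _ ⟨a2, ha2, rfl⟩
      rw [← map_mul, ← map_mul, hA a1 ha1 a2 ha2]
    · rintro _ ⟨g1, hg1, rfl⟩ _ ⟨a1, ha1, rfl⟩
      obtain ⟨k, hk, hkA⟩ := hn g1 hg1 a1 ha1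
      refine ⟨k, hk, ?_⟩
      rw [← map_inv, ← map_mul, ← map_mul, ← map_pow]
      exact Subgroup.mem_map_of_mem f hkA
  · have hfx : f x ≠ 1 := fun e => hx (hf (e.trans (map_one f).symm))
    obtain ⟨b, hb, hbx⟩ := h.hom (f x) hfx
    refine ⟨fun g => b (f g), fun g g' h1 h2 => ?_, hbx⟩
    show b (f (g * g')) = b (f g) + b (f g')
    rw [map_mul]
    exact hb _ _ (by rw [← map_mul, ← map_mul, h1]) (by rw [← map_mul, ← map_mul, h2])

end Pool.Agent.H18.RG
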