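import Pool.Agent.H18.RG.ClsA

/-!
# [RG4b] Quotients by isolators have the property `RR` (steps (2), (3), (4))

`tf`: `hom` and `b (x ^ k) = k * b x`. `root`: `Commute (x ^ k) y` gives `(y x y⁻¹) ^ k = x ^ k`. `inj`: compose with the injective homomorphism (images
of subgroups for `cen`); `C`: `Inherits.of_injective`. `quot`: let `I = f.ker = {c | Pw A c}`. By `cen` (`K = ⊤`) `A` is central, and `I` is central
(`root`). (1) If `z = [x, y] ∈ I` then `z = 1`: otherwise take `b` for `z` (defined and additive on all of `G`), `b [x, y] = 0`. So `f x` and `f y`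
commute iff `x` and `y` commute. (2) `root` for `Q`: `f x ^ k = f y ^ k`: `f (x ^ k)` commutes with `f y`, so `x ^ k` commutes with `y`, so `x` does, so
`(x * y⁻¹) ^ k ∈ I`, `Pw A (x * y⁻¹)`, `f x = f y`. (3) `cen` for `Q`: preimages. (4) `hom` for `Q`: `f x ≠ 1`. Let `E` be the set of the functions
`b : G → ℚ` which are additive on the centraliser `Z` of `x`, `V = E → ℚ` (a vector space), `ev g = fun b => b g`. `ev` is additive on `Z`, and
`ev y ≠ 0` for all `y ≠ 1` of the form `x ^ n * c`, `c ∈ I`, `n : ℤ` (`hom` for `y`; the centraliser of `y` contains `Z`). `ev x` is not in the span `S` of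
`ev I`: otherwise `N • ev x = ev c`, `N ≠ 0`, `c ∈ I` (elements of the span: clear denominators), so `x ^ N * c⁻¹ = 1`, `Pw A x`. So there is a linear
form on `V` which vanishes on `S` and is not `0` at `ev x`; its composition with `ev` is the pullback of a function on `Q` (choose
preimages: `b (g * c) = b g` for `g ∈ Z`, `c ∈ I`). (5) `C Q`: the same with `Z = G` (`I` is central): `ev : G → V` is a homomorphism, injective on `I`;
let `π` be a linear projection of `V` onto the span `S` of `ev I`, `K` = the kernel of `π ∘ ev`. `K ∩ I = 1`, so `f` is injective on `K` and `f(K)` is in `C`. For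
every `g : G` some power `g ^ N`, `N ≠ 0`, is in `K I` (`π (ev g)` is in the span). So for every finitely generated `Q' ≤ Q` the subgroup
`f(K) ∩ Q'` is normal with commutative (`S` is commutative) torsion finitely generated quotient, so of finite index
(`CommGroup.finite_of_fg_torsion`). `Inherits.index`, `Pool.Agent.H76.VC.of_fg`.
-/

set_option autoImplicit false

namespace Pool.Agent.H18.RG

open Pool.Agent.H98.FJ Pool.Agent.H50.GN

theorem Pw_pow {G : Type} [Group G] {A : Subgroup G} {c : G} {k : ℕ} (hk : k ≠ 0) (h : Pw A (c ^ k)) : Pw A c := by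
  obtain ⟨m, hm, h1⟩ := h
  exact ⟨k * m, mul_ne_zero hk hm, by rw [pow_mul]; exact h1⟩

theorem RR_quot {G Q : Type} [Group G] [Group Q] (hG : RR G) (f : G →* Q) (hf : Function.Surjective f)
    (A : Subgroup G) (hA : Ab A) (hn : ∀ (g : G), ∀ a ∈ A, Pw A (g * a * g⁻¹)) (hk : ∀ c, f c = 1 ↔ Pw A c) : RR Q := by
  classical
  obtain ⟨hcen, hcomm⟩ := comm_of_quot hG f hf A hA hn hk
  refine ⟨?_, ?_, ?_⟩
  · -- roots
    intro X Y k hk0 hXY
    obtain ⟨x, rfl⟩ := hf X
    obtain ⟨y, rfl⟩ := hf Y
    have h1 : x ^ k * y = y * x ^ k := by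
      apply hcomm
      rw [map_pow, hXY, ← pow_succ, ← pow_succ']
    have h2 : (y * x * y⁻¹) ^ k = x ^ k := by
      rw [conj_pow, ← h1, mul_inv_cancel_right]
    have h3 := hG.root _ _ k hk0 h2
    rw [mul_inv_eq_iff_eq_mul] at h3
    have h4 : Commute x y⁻¹ := (show Commute x y from h3.symm).inv_right
    have h5 : f ((x * y⁻¹) ^ k) = 1 := by
      rw [h4.mul_pow, map_mul, map_pow, map_pow, map_inv, hXY, inv_pow, mul_inv_cancel]
    have h6 : f (x * y⁻¹) = 1 := (hk _).2 (Pw_pow hk0 ((hk _).1 h5))
    rw [map_mul, map_inv, mul_inv_eq_one] at h6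
    exact h6
  · -- commutative subgroups
    intro K' A' hAK hA' hn' a ha g hg
    obtain ⟨a, rfl⟩ := hf a
    obtain ⟨g, rfl⟩ := hf g
    have h1 := hG.cen (K'.comap f) (A'.comap f) (Subgroup.comap_mono hAK) ?_ ?_ a ha g hg
    · rw [← map_mul, h1, map_mul]
    · intro a ha b hb
      exact hcomm a b (hA' _ ha _ hb)
    · intro g hg a ha
      obtain ⟨k, hk0, h2⟩ := hn' (f g) hg (f a) ha
      refine ⟨k, hk0, ?_⟩
      rw [Subgroup.mem_comap, map_pow, map_mul, map_mul, map_inv]
      exact h2
  · -- homomorphisms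
    intro X hX
    let σ : Q → G := Function.surjInv hf
    have hσ : ∀ q, f (σ q) = q := Function.surjInv_eq hf
    let x : G := σ X
    have hx : f x = X := hσ X
    let E : Type := {b : G → ℚ // ∀ g h : G, x * g = g * x → x * h = h * x → b (g * h) = b g + b h}
    let ev : G → (E → ℚ) := fun g b => b.1 g
    have hadd : ∀ g h : G, x * g = g * x → x * h = h * x → ev (g * h) = ev g + ev h := by
      intro g h hg hh
      funext b
      exact b.2 g h hg hh
    have hone : ev 1 = 0 := by
      have h := hadd 1 1 (by rw [mul_one, one_mul]) (by rw [mul_one, one_mul])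
      rw [mul_one] at h
      exact left_eq_add.1 h
    have hinv : ∀ g : G, x * g = g * x → ev g⁻¹ = -ev g := by
      intro g hg
      have hg' : x * g⁻¹ = g⁻¹ * x := (show Commute x g from hg).inv_right
      have h := hadd g g⁻¹ hg hg'
      rw [mul_inv_cancel, hone] at h
      exact eq_neg_of_add_eq_zero_right h.symm
    have hpow : ∀ n : ℕ, ev (x ^ n) = n • ev x := by
      intro n
      induction n with
      | zero => rw [pow_zero, hone, zero_smul]
      | succ n ih =>
        have h1 : x * x ^ n = x ^ n * x := (Commute.refl x).pow_right n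
        rw [pow_succ, hadd _ _ h1 rfl, ih, add_smul, one_smul]
    have hI : ∀ c, f c = 1 → x * c = c * x := fun c hc => (hcen c hc x).symm
    let AI : AddSubgroup (E → ℚ) :=
      { carrier := {v | ∃ c, f c = 1 ∧ v = ev c}
        zero_mem' := ⟨1, map_one f, hone.symm⟩
        add_mem' := by
          rintro _ _ ⟨c, hc, rfl⟩ ⟨d, hd, rfl⟩
          exact ⟨c * d, by rw [map_mul, hc, hd, one_mul], (hadd c d (hI c hc) (hI d hd)).symm⟩
        neg_mem' := by
          rintro _ ⟨c, hc, rfl⟩
          exact ⟨c⁻¹, by rw [map_inv, hc, inv_one], (hinv c (hI c hc)).symm⟩ }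
    have hns : ev x ∉ Submodule.span ℚ (AI : Set (E → ℚ)) := by
      intro h
      obtain ⟨N, hN, c, hc, h1⟩ := mem_span_nat AI (ev x) h
      rw [← hpow] at h1
      have hxN : x * x ^ N = x ^ N * x := (Commute.refl x).pow_right N
      have hc' : x * c⁻¹ = c⁻¹ * x := (show Commute x c from hI c hc).inv_right
      have h2 : ev (x ^ N * c⁻¹) = 0 := by
        rw [hadd _ _ hxN hc', hinv c (hI c hc), h1, add_neg_cancel]
      have h3 : x ^ N * c⁻¹ = 1 := by
        by_contra hne
        obtain ⟨b, hb, hb0⟩ := hG.hom _ hne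
        have hZ : ∀ g : G, x * g = g * x → x ^ N * c⁻¹ * g = g * (x ^ N * c⁻¹) := by
          intro g hg
          have e1 : Commute (x ^ N) g := (show Commute x g from hg).pow_left N
          have e2 : Commute c⁻¹ g := (show Commute c g from hcen c hc g).inv_left
          exact (e1.mul_left e2 : Commute (x ^ N * c⁻¹) g)
        exact hb0 (congrFun h2 ⟨b, fun g h hg hh => hb g h (hZ g hg) (hZ h hh)⟩)
      have h4 : f (x ^ N) = 1 := by
        rw [mul_inv_eq_one] at h3
        rw [h3, hc]
      have h5 : f x = 1 := (hk _).2 (Pw_pow hN ((hk _).1 h4))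
      exact hX (hx.symm.trans h5)
    obtain ⟨φ, hφx, hφ⟩ := Submodule.exists_le_ker_of_notMem hns
    have hφI : ∀ c, f c = 1 → φ (ev c) = 0 := fun c hc => hφ (Submodule.subset_span ⟨c, hc, rfl⟩)
    refine ⟨fun q => φ (ev (σ q)), ?_, hφx⟩
    intro g' h' hg hh
    have hgx : x * σ g' = σ g' * x := by
      apply hcomm
      rw [hx, hσ]
      exact hg
    have hhx : x * σ h' = σ h' * x := by
      apply hcomm
      rw [hx, hσ]
      exact hh
    have hghx : x * (σ g' * σ h') = σ g' * σ h' * x :=
      (show Commute x (σ g') from hgx).mul_right (show Commute x (σ h') from hhx)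
    have hc : f ((σ g' * σ h')⁻¹ * σ (g' * h')) = 1 := by
      rw [map_mul, map_inv, map_mul, hσ, hσ, hσ, inv_mul_cancel]
    have e : σ (g' * h') = σ g' * σ h' * ((σ g' * σ h')⁻¹ * σ (g' * h')) := by
      rw [mul_inv_cancel_left]
    show φ (ev (σ (g' * h'))) = φ (ev (σ g')) + φ (ev (σ h'))
    rw [e, hadd _ _ hghx (hI _ hc), hadd _ _ hgx hhx, map_add, map_add, hφI _ hc, add_zero]

end Pool.Agent.H18.RG
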