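import Pool.Agent.H18.RG.ClsA
import Pool.Agent.H50.GN.ClsCSA

/-!
# [RG6] Torsion-free CSA groups, direct products

`RR_csa`. `root`: `x ^ k = y ^ k`, `k ≠ 0`, `x ≠ 1`: `x`, `y` commute with `x ^ k ≠ 1`, so they commute, `(x * y⁻¹) ^ k = 1`. `cen`: `a ∈ A`, `a ≠ 1`, `g ∈ K`: a power
`g * a ^ k * g⁻¹ ∈ A` commutes with `a`; `x = a ^ k ≠ 1` commutes with `a`, so `g` commutes with `a` by the second condition. `hom`: the centraliser
`Z` of `x` is commutative and torsion-free; `ℚ ⊗ Z` or: `Additive Z` embeds in a vector space over `ℚ` (`Z` torsion-free), take a linear form; or: extend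
the homomorphism `x ^ n ↦ n` from the subgroup generated by `x` to `Z` (`ℚ` is divisible: an injective abelian group). `RR_prod`: componentwise; `cen`:
the images of `K`, `A` in the two factors.
-/

set_option autoImplicit false

namespace Pool.Agent.H18.RG

open Pool.Agent.H98.FJ Pool.Agent.H50.GN

/-- in a commutative group an element of infinite order is not in the kernel of some homomorphism to `ℚ` -/
private theorem exists_form (Z : Type) [CommGroup Z] (x : Z) (hx : ∀ n : ℤ, x ^ n = 1 → n = 0) :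
    ∃ φ : Additive Z →+ ℚ, φ (Additive.ofMul x) ≠ 0 := by
  have hinj : Function.Injective (zmultiplesHom (Additive Z) (Additive.ofMul x)) := by
    rw [injective_iff_map_eq_zero]
    intro n hn
    rw [zmultiplesHom_apply, ← ofMul_zpow] at hn
    exact hx n hn
  obtain ⟨φ, hφ⟩ := (Module.Baer.of_divisible ℚ).extension_property_addMonoidHom
    (zmultiplesHom (Additive Z) (Additive.ofMul x)) hinj (Int.castAddHom ℚ)
  refine ⟨φ, ?_⟩
  have h1 := DFunLike.congr_fun hφ 1
  rw [AddMonoidHom.comp_apply, zmultiplesHom_apply, one_zsmul] at h1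
  rw [h1]
  simp

theorem RR_csa (G : Type) [Group G] (h1 : Pool.Agent.H63.RK.TF G) (h2 : CSA G) : RR G := by
  classical
  refine ⟨?_, ?_, ?_⟩
  · intro x y k hk h
    by_cases hx : x = 1
    · rw [hx, one_pow] at h
      rw [hx, h1 y k hk h.symm]
    · have hxk : x ^ k ≠ 1 := fun h3 => hx (h1 x k hk h3)
      have hc : x * y = y * x := by
        refine (h2 _ hxk).1 x y ?_ ?_
        · exact ((Commute.refl x).pow_left k).eq
        · rw [h]
          exact ((Commute.refl y).pow_left k).eq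
      have h3 : (x * y⁻¹) ^ k = 1 := by
        have hc' : Commute x y⁻¹ := (show Commute x y from hc).inv_right
        rw [hc'.mul_pow, inv_pow, h, mul_inv_cancel]
      exact mul_inv_eq_one.1 (h1 _ k hk h3)
  · intro K A hAK hA hP a ha g hg
    by_cases ha1 : a = 1
    · rw [ha1, one_mul, mul_one]
    · obtain ⟨k, hk, h3⟩ := hP g hg a ha
      rw [conj_pow] at h3
      exact (h2 a ha1).2 g (a ^ k) (fun h4 => ha1 (h1 a k hk h4)) ((Commute.refl a).pow_right k).eq (hA a ha _ h3)
  · intro x hx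
    have hZ : ∀ g h : Subgroup.centralizer ({x} : Set G), g * h = h * g := by
      intro g h
      apply Subtype.ext
      exact (h2 x hx).1 g h (Subgroup.mem_centralizer_singleton_iff.1 g.2).symm (Subgroup.mem_centralizer_singleton_iff.1 h.2).symm
    let _ : CommGroup (Subgroup.centralizer ({x} : Set G)) :=
      { (inferInstance : Group (Subgroup.centralizer ({x} : Set G))) with mul_comm := hZ }
    have hxZ : x ∈ Subgroup.centralizer ({x} : Set G) := Subgroup.mem_centralizer_singleton_iff.2 rfl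
    obtain ⟨φ, hφ⟩ := exists_form (Subgroup.centralizer ({x} : Set G)) ⟨x, hxZ⟩ (by
      intro n hn
      have h3 : x ^ n = 1 := congrArg Subtype.val hn
      by_contra hn0
      apply hx
      refine h1 x n.natAbs (by omega) ?_
      rcases n.natAbs_eq with h4 | h4
      · rw [h4, zpow_natCast] at h3
        exact h3
      · rw [h4, zpow_neg, zpow_natCast, inv_eq_one] at h3
        exact h3)
    have hm : ∀ g : G, x * g = g * x → g ∈ Subgroup.centralizer ({x} : Set G) := fun g hg =>
      Subgroup.mem_centralizer_singleton_iff.2 hg.symm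
    refine ⟨fun g => if h : g ∈ Subgroup.centralizer ({x} : Set G) then φ (Additive.ofMul ⟨g, h⟩) else 0, ?_, ?_⟩
    · intro g h hg hh
      have hg' := hm g hg
      have hh' := hm h hh
      beta_reduce
      rw [dif_pos (Subgroup.mul_mem _ hg' hh'), dif_pos hg', dif_pos hh', ← map_add]
      rfl
    · beta_reduce
      rw [dif_pos hxZ]
      exact hφ

theorem RR_prod (G H : Type) [Group G] [Group H] (h1 : RR G) (h2 : RR H) : RR (G × H) := by
  refine ⟨?_, ?_, ?_⟩
  · intro x y k hk h
    exact Prod.ext (h1.root _ _ k hk (congrArg Prod.fst h)) (h2.root _ _ k hk (congrArg Prod.snd h))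
  · intro K A hAK hA hP a ha g hg
    refine Prod.ext ?_ ?_
    · refine h1.cen (K.map (MonoidHom.fst G H)) (A.map (MonoidHom.fst G H)) (Subgroup.map_mono hAK) ?_ ?_ a.1 ⟨a, ha, rfl⟩ g.1
        ⟨g, hg, rfl⟩
      · rintro _ ⟨u, hu, rfl⟩ _ ⟨v, hv, rfl⟩
        rw [← map_mul, ← map_mul, hA u hu v hv]
      · rintro _ ⟨u, hu, rfl⟩ _ ⟨v, hv, rfl⟩
        obtain ⟨k, hk, h3⟩ := hP u hu v hv
        exact ⟨k, hk, _, h3, by simp⟩
    · refine h2.cen (K.map (MonoidHom.snd G H)) (A.map (MonoidHom.snd G H)) (Subgroup.map_mono hAK) ?_ ?_ a.2 ⟨a, ha, rfl⟩ g.2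
        ⟨g, hg, rfl⟩
      · rintro _ ⟨u, hu, rfl⟩ _ ⟨v, hv, rfl⟩
        rw [← map_mul, ← map_mul, hA u hu v hv]
      · rintro _ ⟨u, hu, rfl⟩ _ ⟨v, hv, rfl⟩
        obtain ⟨k, hk, h3⟩ := hP u hu v hv
        exact ⟨k, hk, _, h3, by simp⟩
  · intro x hx
    by_cases hx1 : x.1 = 1
    · have hx2 : x.2 ≠ 1 := fun h3 => hx (Prod.ext hx1 h3)
      obtain ⟨b, hb, hb0⟩ := h2.hom x.2 hx2
      exact ⟨fun g => b g.2, fun g h hg hh => hb _ _ (congrArg Prod.snd hg) (congrArg Prod.snd hh), hb0⟩
    · obtain ⟨b, hb, hb0⟩ := h1.hom x.1 hx1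
      exact ⟨fun g => b g.1, fun g h hg hh => hb _ _ (congrArg Prod.fst hg) (congrArg Prod.fst hh), hb0⟩

end Pool.Agent.H18.RG
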