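import Pool.Agent.H50.GN.Defs
import Pool.Agent.H76.SC.FreeTree

/-!
# Groups with unique roots whose centralisers split (MP_2a547c_gt): definitions

`RR G`: (1) roots are unique; (2) an abelian subgroup `A` of a subgroup `K` such that all conjugates `g a g⁻¹`, `g ∈ K`, `a ∈ A`, have
a power in `A` is central in `K`; (3) for every `x ≠ 1` there is a homomorphism from the centraliser of `x` to `ℚ` which is not `0` at
`x`. Subgroups of right-angled Artin groups and torsion-free CSA groups have this property. `MA d ht`: an action on a tree, given by its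
metric `d`, with a height function `ht` whose differences are invariant (so there are no inversions).
-/

set_option autoImplicit false

namespace Pool.Agent.H18.RG

open Pool.Agent.H98.FJ Pool.Agent.H50.GN

/-- groups with unique roots whose centralisers split -/
structure RR (G : Type) [Group G] : Prop where
  root : ∀ (x y : G) (k : ℕ), k ≠ 0 → x ^ k = y ^ k → x = y
  cen : ∀ K A : Subgroup G, A ≤ K → Ab A → (∀ g ∈ K, ∀ a ∈ A, Pw A (g * a * g⁻¹)) →
    ∀ a ∈ A, ∀ g ∈ K, a * g = g * a
  hom : ∀ x : G, x ≠ 1 → ∃ b : G → ℚ, (∀ g h : G, x * g = g * x → x * h = h * x → b (g * h) = b g + b h) ∧ b x ≠ 0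

/-- the groups with the property `RR` in the class -/
def WR (C : (G : Type) → [Group G] → Prop) (G : Type) [Group G] : Prop := RR G ∧ C G

/-- an action by isometries of a tree metric `d` with a height function -/
structure MA (G : Type) [Group G] {V : Type} [MulAction G V] (d : V → V → ℕ) (ht : V → ℤ) : Prop where
  tree : Pool.Agent.H76.SC.IsTree d
  iso : ∀ (g : G) (x y : V), d (g • x) (g • y) = d x y
  ht_smul : ∀ (g : G) (x y : V), ht (g • x) - ht (g • y) = ht x - ht y
  ht_le : ∀ x y : V, |ht x - ht y| ≤ d x y
  par : ∀ x y : V, Even ((d x y : ℤ) - (ht x - ht y))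

end Pool.Agent.H18.RG
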