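import Pool.Agent.H18.RG.Met

/-!
# [RG2] Extensions of groups with the property `RR` by groups acting freely on a tree

`F = f.ker` acts freely. `root`: `x ^ k = y ^ k`, so `f x = f y` and `y = x * c`, `c ∈ F`; `z = x ^ k`. If `z` fixes a vertex then so do `x`
and `y` (`ell_pow`), `x • m = m`, `y • m' = m'`; `z` fixes `m`, `m'` and so all points between them (a point between `m` and `m'` is
determined by its distances), and `x` fixes them one after the other (`hiso`). So `c • m' = m'`, `c = 1`. Otherwise take `b` for `z`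
(`bus`): `k * b x = b z = k * b y`, so `b c = 0`, `c` fixes a vertex, `c = 1`. `cen`: let `a ∈ A`, `g ∈ K`. By `cen` for the images in `Q`
`f a` and `f g` commute. `(g a g⁻¹) ^ k ∈ A` for some `k ≠ 0`; put `x = a ^ k` (after a power in `A`), `y = g x g⁻¹ ∈ A`, `c = x⁻¹ y ∈ F ∩ A`. If `c ≠ 1`:
`g c ^ m g⁻¹ = u ∈ A`, `m ≠ 0`, `u ∈ F`; `b` for `c`: `b (u ^ (b c) * c ^ (- b u)) = 0`, so `u ^ (b c) = c ^ (b u)`, so `g c ^ (m * b c) g⁻¹ = c ^ (b u)`;
`|m * b c| = |b u|` (`conj_abs`), so `g²` commutes with a power of `c`, so `g ^ 2` commutes with `c`, so `g` commutes with `c` (`root`). So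
`b c = b (x⁻¹ * (g x g⁻¹)) = 0` (everything commutes with `c`), a contradiction. So `x` commutes with `g`, and `a` does (`root`).
`hom`: `f x ≠ 1`: from `Q`; `x ∈ F`: `x` has no fixed point, `bus`.
-/

set_option autoImplicit false

namespace Pool.Agent.H18.RG

open Pool.Agent.H98.FJ Pool.Agent.H50.GN

section additive

variable {G : Type} [Group G] {z : G} {b : G → ℤ}

private theorem b_one (hb : ∀ g h : G, z * g = g * z → z * h = h * z → b (g * h) = b g + b h) : b 1 = 0 := by
  have h := hb 1 1 (by rw [mul_one, one_mul]) (by rw [mul_one, one_mul])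
  rw [mul_one] at h
  linarith

private theorem b_inv (hb : ∀ g h : G, z * g = g * z → z * h = h * z → b (g * h) = b g + b h) {g : G}
    (hg : z * g = g * z) : b g⁻¹ = - b g := by
  have hg' : z * g⁻¹ = g⁻¹ * z := ((show Commute z g from hg).inv_right).eq
  have h := hb g g⁻¹ hg hg'
  rw [mul_inv_cancel, b_one hb] at h
  linarith

private theorem b_pow (hb : ∀ g h : G, z * g = g * z → z * h = h * z → b (g * h) = b g + b h) {g : G}
    (hg : z * g = g * z) (n : ℕ) : b (g ^ n) = n * b g := by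
  induction n with
  | zero =>
    rw [pow_zero, b_one hb]
    simp
  | succ n ih =>
    have h1 : z * g ^ n = g ^ n * z := ((show Commute z g from hg).pow_right n).eq
    rw [pow_succ, hb _ _ h1 hg, ih]
    push_cast
    ring

private theorem b_zpow (hb : ∀ g h : G, z * g = g * z → z * h = h * z → b (g * h) = b g + b h) {g : G}
    (hg : z * g = g * z) (n : ℤ) : b (g ^ n) = n * b g := by
  rcases Int.eq_nat_or_neg n with ⟨m, rfl | rfl⟩
  · rw [zpow_natCast, b_pow hb hg]
  · have h1 : z * g ^ m = g ^ m * z := ((show Commute z g from hg).pow_right m).eq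
    rw [zpow_neg, zpow_natCast, b_inv hb h1, b_pow hb hg]
    ring

end additive

variable {G V : Type} [Group G] [MulAction G V] {d : V → V → ℕ} {ht : V → ℤ}

/-- `x` fixes the fixed points of its powers, if it has a fixed point -/
private theorem fix_along (hM : MA G d ht) (x : G) (k : ℕ) (hk : k ≠ 0)
    (hiso : ∀ (g : G) (k : ℕ) (u v : V), k ≠ 0 → g • u = u → g ^ k • v = v → d u v = 1 → g • v = v)
    (m : V) (hm : x • m = m) : ∀ (n : ℕ) (v : V), d m v = n → x ^ k • v = v → x • v = v := by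
  have hzm : x ^ k • m = m := (MulAction.stabilizer G m).pow_mem hm k
  intro n
  induction n with
  | zero =>
    intro v hv _
    rw [← hM.tree.eq m v hv]
    exact hm
  | succ n ih =>
    intro v hv hzv
    obtain ⟨w, hw1, hw2⟩ := hM.tree.geo m v n (by omega)
    have h1 : d m (x ^ k • w) = n := by
      have h := hM.iso (x ^ k) m w
      rw [hzm] at h
      rw [h, hw1]
    have h2 : d (x ^ k • w) v = 1 := by
      have h := hM.iso (x ^ k) w v
      rw [hzv] at h
      rw [h, hw2]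
      omega
    have h3 := hM.tree.four w (x ^ k • w) m v
    have s1 := hM.tree.symm w m
    have s2 := hM.tree.symm (x ^ k • w) m
    have h4 : d w (x ^ k • w) = 0 := by
      rcases le_max_iff.1 h3 with h | h <;> omega
    have h5 : x ^ k • w = w := (hM.tree.eq _ _ h4).symm
    exact hiso x k w v hk (ih w hw1 h5) hzv (by omega)

private theorem root_of_tree {Q : Type} [Group Q] (hM : MA G d ht) [Nonempty V] (f : G →* Q) (hQ : RR Q)
    (hfree : ∀ g : G, f g = 1 → ∀ v : V, g • v = v → g = 1)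
    (hiso : ∀ (g : G) (k : ℕ) (u v : V), k ≠ 0 → g • u = u → g ^ k • v = v → d u v = 1 → g • v = v)
    (x y : G) (k : ℕ) (hk : k ≠ 0) (hxy : x ^ k = y ^ k) : x = y := by
  have hf : f x = f y := hQ.root _ _ k hk (by rw [← map_pow, ← map_pow, hxy])
  have hfc : f (x⁻¹ * y) = 1 := by rw [map_mul, map_inv, hf, inv_mul_cancel]
  suffices h : ∃ v : V, (x⁻¹ * y) • v = v by
    obtain ⟨v, hv⟩ := h
    have h1 := hfree _ hfc v hv
    exact inv_mul_eq_one.1 h1
  by_cases hz : ∃ v : V, x ^ k • v = v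
  · obtain ⟨v, hv⟩ := hz
    obtain ⟨m, hm⟩ := ell_pow hM x k hk v hv
    obtain ⟨m', hm'⟩ := ell_pow hM y k hk v (by rw [← hxy]; exact hv)
    have hzm' : x ^ k • m' = m' := by
      rw [hxy]
      exact (MulAction.stabilizer G m').pow_mem hm' k
    have hxm' := fix_along hM x k hk hiso m hm (d m m') m' rfl hzm'
    refine ⟨m', ?_⟩
    rw [mul_smul, hm', inv_smul_eq_iff, hxm']
  · push Not at hz
    obtain ⟨b, hb, hbz, hfix⟩ := bus hM (x ^ k) hz
    have cx : x ^ k * x = x * x ^ k := ((Commute.refl x).pow_left k).eq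
    have cy : x ^ k * y = y * x ^ k := by
      rw [hxy]
      exact ((Commute.refl y).pow_left k).eq
    have cc : x ^ k * x⁻¹ = x⁻¹ * x ^ k := ((show Commute (x ^ k) x from cx).inv_right).eq
    have h1 : b (x ^ k) = k * b x := b_pow hb cx k
    have h2 : b (y ^ k) = k * b y := b_pow hb cy k
    rw [← hxy, h1] at h2
    have hk' : (k : ℤ) ≠ 0 := by exact_mod_cast hk
    have h3 : b x = b y := mul_left_cancel₀ hk' h2
    have h4 : b (x⁻¹ * y) = 0 := by
      rw [hb _ _ cc cy, b_inv hb cx, h3]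
      ring
    exact (hfix _ (((show Commute (x ^ k) x⁻¹ from cc).mul_right (show Commute (x ^ k) y from cy)).eq)).1 h4

private theorem root_zpow {G : Type} [Group G] (hr : ∀ (x y : G) (k : ℕ), k ≠ 0 → x ^ k = y ^ k → x = y)
    (x y : G) (n : ℤ) (hn : n ≠ 0) (h : x ^ n = y ^ n) : x = y := by
  refine hr x y n.natAbs (by omega) ?_
  rcases Int.natAbs_eq n with h1 | h1
  · rw [h1, zpow_natCast, zpow_natCast] at h
    exact h
  · rw [h1, zpow_neg, zpow_neg, zpow_natCast, zpow_natCast] at h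
    exact inv_injective h

private theorem cen_of_tree {Q : Type} [Group Q] (hM : MA G d ht) [Nonempty V] (f : G →* Q) (hQ : RR Q)
    (hfree : ∀ g : G, f g = 1 → ∀ v : V, g • v = v → g = 1)
    (hr : ∀ (x y : G) (k : ℕ), k ≠ 0 → x ^ k = y ^ k → x = y)
    (K A : Subgroup G) (hAK : A ≤ K) (hA : Ab A) (hP : ∀ g ∈ K, ∀ a ∈ A, Pw A (g * a * g⁻¹))
    (a : G) (ha : a ∈ A) (g : G) (hg : g ∈ K) : a * g = g * a := by
  -- the images commute
  have hcQ : ∀ a ∈ A, f a * f g = f g * f a := by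
    intro a ha
    refine hQ.cen (K.map f) (A.map f) (Subgroup.map_mono hAK) ?_ ?_ _ ⟨a, ha, rfl⟩ _ ⟨g, hg, rfl⟩
    · rintro _ ⟨a, ha, rfl⟩ _ ⟨a', ha', rfl⟩
      rw [← map_mul, ← map_mul, hA a ha a' ha']
    · rintro _ ⟨g, hg, rfl⟩ _ ⟨a, ha, rfl⟩
      obtain ⟨k, hk, h⟩ := hP g hg a ha
      refine ⟨k, hk, (g * a * g⁻¹) ^ k, h, ?_⟩
      rw [map_pow, map_mul, map_mul, map_inv]
  obtain ⟨k, hk, hy⟩ := hP g hg a ha
  obtain ⟨x, hx⟩ : ∃ x, x = a ^ k := ⟨_, rfl⟩
  have hxA : x ∈ A := by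
    rw [hx]
    exact A.pow_mem ha k
  have hyx : g * x * g⁻¹ = (g * a * g⁻¹) ^ k := by rw [hx, conj_pow]
  obtain ⟨y, hyd⟩ : ∃ y, y = g * x * g⁻¹ := ⟨_, rfl⟩
  have hyA : y ∈ A := by
    rw [hyd, hyx]
    exact hy
  have hfy : f y = f x := by
    rw [hyd, map_mul, map_mul, map_inv, ← hcQ x hxA, mul_inv_cancel_right]
  by_cases hc : x⁻¹ * y = 1
  · have h1 : x = y := inv_mul_eq_one.1 hc
    have h2 : (g * a * g⁻¹) ^ k = a ^ k := by rw [← hyx, ← hyd, ← h1, hx]
    have h3 : g * a * g⁻¹ = a := hr _ _ k hk h2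
    exact (mul_inv_eq_iff_eq_mul.1 h3).symm
  · exfalso
    obtain ⟨c, hcd⟩ : ∃ c, c = x⁻¹ * y := ⟨_, rfl⟩
    rw [← hcd] at hc
    have hcA : c ∈ A := by
      rw [hcd]
      exact A.mul_mem (A.inv_mem hxA) hyA
    have hfc : f c = 1 := by rw [hcd, map_mul, map_inv, hfy, inv_mul_cancel]
    have hnf : ∀ v : V, c • v ≠ v := fun v hv => hc (hfree c hfc v hv)
    obtain ⟨b, hb, hbc, hfix⟩ := bus hM c hnf
    obtain ⟨m, hm, hu'⟩ := hP g hg c hcA
    obtain ⟨u, hud⟩ : ∃ u, u = (g * c * g⁻¹) ^ m := ⟨_, rfl⟩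
    have hu : u ∈ A := by
      rw [hud]
      exact hu'
    have hfu : f u = 1 := by
      rw [hud, map_pow, map_mul, map_mul, hfc, mul_one, map_inv, mul_inv_cancel, one_pow]
    have cu : c * u = u * c := hA c hcA u hu
    have cc : c * c = c * c := rfl
    have cw1 : c * u ^ (b c) = u ^ (b c) * c := ((show Commute c u from cu).zpow_right _).eq
    have cw2 : c * c ^ (- b u) = c ^ (- b u) * c := ((Commute.refl c).zpow_right _).eq
    have hw0 : b (u ^ (b c) * c ^ (- b u)) = 0 := by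
      rw [hb _ _ cw1 cw2, b_zpow hb cu, b_zpow hb cc]
      ring
    have hwc : c * (u ^ (b c) * c ^ (- b u)) = (u ^ (b c) * c ^ (- b u)) * c :=
      ((show Commute c (u ^ (b c)) from cw1).mul_right (show Commute c (c ^ (- b u)) from cw2)).eq
    obtain ⟨v, hv⟩ := (hfix _ hwc).1 hw0
    have hfw : f (u ^ (b c) * c ^ (- b u)) = 1 := by
      rw [map_mul, map_zpow, map_zpow, hfu, hfc, one_zpow, one_zpow, mul_one]
    have hw1 := hfree _ hfw v hv
    have h1 : u ^ (b c) = c ^ (b u) := by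
      rw [zpow_neg] at hw1
      exact mul_inv_eq_one.1 hw1
    obtain ⟨n, hnd⟩ : ∃ n : ℤ, n = (m : ℤ) * b c := ⟨_, rfl⟩
    have h2 : g * c ^ n * g⁻¹ = c ^ (b u) := by
      rw [← h1, hud, ← zpow_natCast, ← zpow_mul, ← hnd, conj_zpow]
    have h3 := conj_abs hM c hnf g _ _ h2
    have hn : n ≠ 0 := by
      rw [hnd]
      exact mul_ne_zero (by exact_mod_cast hm) hbc
    -- `g` commutes with `c`
    have hgc : c * g = g * c := by
      rcases abs_eq_abs.1 h3 with h4 | h4
      · rw [← h4] at h2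
        have h5 : (g * c * g⁻¹) ^ n = c ^ n := by
          rw [conj_zpow]
          exact h2
        have h6 := root_zpow hr _ _ _ hn h5
        exact (mul_inv_eq_iff_eq_mul.1 h6).symm
      · have h5 : b u = -n := by omega
        rw [h5, zpow_neg] at h2
        have h7 : (g ^ 2 * c * (g ^ 2)⁻¹) ^ n = c ^ n := by
          rw [conj_zpow]
          calc g ^ 2 * c ^ n * (g ^ 2)⁻¹ = g * (g * c ^ n * g⁻¹) * g⁻¹ := by
                rw [pow_two, mul_inv_rev]
                simp only [mul_assoc]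
            _ = g * (c ^ n)⁻¹ * g⁻¹ := by rw [h2]
            _ = (g * c ^ n * g⁻¹)⁻¹ := by
                rw [mul_inv_rev, mul_inv_rev, inv_inv, mul_assoc]
            _ = c ^ n := by rw [h2, inv_inv]
        have h8 : g ^ 2 * c * (g ^ 2)⁻¹ = c := root_zpow hr _ _ _ hn h7
        have h9 : c * g ^ 2 * c⁻¹ = g ^ 2 := by
          have h10 : g ^ 2 * c = c * g ^ 2 := mul_inv_eq_iff_eq_mul.1 h8
          rw [← h10, mul_inv_cancel_right]
        have h10 : (c * g * c⁻¹) ^ 2 = g ^ 2 := by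
          rw [conj_pow]
          exact h9
        have h11 : c * g * c⁻¹ = g := hr _ _ 2 two_ne_zero h10
        exact mul_inv_eq_iff_eq_mul.1 h11
    have cx : c * x = x * c := hA c hcA x hxA
    have cxi : c * x⁻¹ = x⁻¹ * c := ((show Commute c x from cx).inv_right).eq
    have cy : c * y = y * c := hA c hcA y hyA
    have cgi : c * g⁻¹ = g⁻¹ * c := ((show Commute c g from hgc).inv_right).eq
    have cgx : c * (g * x) = (g * x) * c :=
      ((show Commute c g from hgc).mul_right (show Commute c x from cx)).eq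
    have hby : b y = b x := by
      rw [hyd, hb _ _ cgx cgi, hb _ _ hgc cx, b_inv hb hgc]
      ring
    apply hbc
    have h12 : b (x⁻¹ * y) = 0 := by
      rw [hb _ _ cxi cy, b_inv hb cx, hby]
      ring
    rw [← hcd] at h12
    exact h12

theorem RR_of_tree {G V Q : Type} [Group G] [MulAction G V] [Group Q] {d : V → V → ℕ} {ht : V → ℤ} (hM : MA G d ht)
    [Nonempty V] (f : G →* Q) (hQ : RR Q) (hfree : ∀ g : G, f g = 1 → ∀ v : V, g • v = v → g = 1)
    (hiso : ∀ (g : G) (k : ℕ) (u v : V), k ≠ 0 → g • u = u → g ^ k • v = v → d u v = 1 → g • v = v) : RR G := by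
  have hr := root_of_tree hM f hQ hfree hiso
  refine ⟨hr, ?_, ?_⟩
  · intro K A hAK hA hP a ha g hg
    exact cen_of_tree hM f hQ hfree hr K A hAK hA hP a ha g hg
  · intro x hx
    by_cases hfx : f x = 1
    · have hnf : ∀ v : V, x • v ≠ v := fun v hv => hx (hfree x hfx v hv)
      obtain ⟨b, hb, hbx, -⟩ := bus hM x hnf
      refine ⟨fun g => (b g : ℚ), fun g h hg hh => ?_, ?_⟩
      · show (b (g * h) : ℚ) = (b g : ℚ) + (b h : ℚ)
        rw [hb g h hg hh]
        push_cast
        rfl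
      · show (b x : ℚ) ≠ 0
        exact_mod_cast hbx
    · obtain ⟨b, hb, hbx⟩ := hQ.hom (f x) hfx
      refine ⟨fun g => b (f g), fun g h hg hh => ?_, hbx⟩
      show b (f (g * h)) = b (f g) + b (f h)
      rw [map_mul]
      exact hb _ _ (by rw [← map_mul, hg, map_mul]) (by rw [← map_mul, hh, map_mul])

end Pool.Agent.H18.RG
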