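import Pool.Agent.H18.RG.Defs

/-!
# [RG1] Metric trees: elliptic elements, Busemann functions

`bus`: an element `z` without fixed points has a homomorphism `b` from its centraliser to `ℤ`, `b z ≠ 0`, which vanishes exactly on the
elements with a fixed point. `conj_abs`: `g z ^ i g⁻¹ = z ^ j` implies `|i| = |j|`.

Proof. Let `p` be a vertex, `δ₁ = d p (z p)`, `δ₂ = d p (z² p)`, `D N = d u (z ^ N p)` for a vertex `u`. By the four point condition the two largest
of `D N + δ₁`, `D (N + 1) + δ₂`, `D (N + 2) + δ₁` are equal (`rule`). If `δ₂ ≤ δ₁` the orbit is bounded, the height does not change, `δ₁` is even and the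
midpoint of `p` and `z p` is fixed (`fix_of_le`). If `t = δ₂ - δ₁ > 0` then `D (N + 1) = D N + t` for large `N`, so `D N = N t + B u`; `B` is the
Busemann function, and `b g = B (g p) - B p`.
-/

set_option autoImplicit false

namespace Pool.Agent.H18.RG

open Pool.Agent.H98.FJ Pool.Agent.H50.GN

variable {G V : Type} [Group G] [MulAction G V] {d : V → V → ℕ} {ht : V → ℤ}

private theorem four' (h : Pool.Agent.H76.SC.IsTree d) (x y z w : V) :
    d x y + d z w ≤ d x z + d y w ∨ d x y + d z w ≤ d x w + d y z := by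
  have h1 := h.four x y z w
  rwa [le_max_iff] at h1

private theorem dpow (hM : MA G d ht) (g : G) (a b : ℕ) (x y : V) : d (g ^ a • x) (g ^ (a + b) • y) = d x (g ^ b • y) := by
  rw [pow_add, mul_smul, hM.iso]

private theorem rule (hM : MA G d ht) (z : G) (p u : V) (N : ℕ) :
    (d u (z ^ N • p) + d p (z • p) ≤ d u (z ^ (N + 1) • p) + d p (z ^ 2 • p) ∨
      d u (z ^ N • p) ≤ d u (z ^ (N + 2) • p)) ∧
    (d u (z ^ (N + 1) • p) + d p (z ^ 2 • p) ≤ d u (z ^ N • p) + d p (z • p) ∨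
      d u (z ^ (N + 1) • p) + d p (z ^ 2 • p) ≤ d u (z ^ (N + 2) • p) + d p (z • p)) ∧
    (d u (z ^ (N + 2) • p) ≤ d u (z ^ N • p) ∨
      d u (z ^ (N + 2) • p) + d p (z • p) ≤ d u (z ^ (N + 1) • p) + d p (z ^ 2 • p)) := by
  have e1 : d (z ^ N • p) (z ^ (N + 1) • p) = d p (z • p) := by
    rw [dpow hM, pow_one]
  have e2 : d (z ^ N • p) (z ^ (N + 2) • p) = d p (z ^ 2 • p) := dpow hM z N 2 p p
  have e3 : d (z ^ (N + 1) • p) (z ^ (N + 2) • p) = d p (z • p) := by
    have h := dpow hM z (N + 1) 1 p p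
    rwa [pow_one] at h
  have s1 := hM.tree.symm (z ^ (N + 1) • p) (z ^ N • p)
  have s2 := hM.tree.symm (z ^ (N + 2) • p) (z ^ N • p)
  have s3 := hM.tree.symm (z ^ (N + 2) • p) (z ^ (N + 1) • p)
  have f1 := four' hM.tree u (z ^ N • p) (z ^ (N + 1) • p) (z ^ (N + 2) • p)
  have f2 := four' hM.tree u (z ^ (N + 1) • p) (z ^ N • p) (z ^ (N + 2) • p)
  have f3 := four' hM.tree u (z ^ (N + 2) • p) (z ^ N • p) (z ^ (N + 1) • p)
  refine ⟨?_, ?_, ?_⟩
  · rcases f1 with h | h
    · left; omega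
    · right; omega
  · rcases f2 with h | h
    · left; omega
    · right; omega
  · rcases f3 with h | h
    · left; omega
    · right; omega

private theorem bdd (hM : MA G d ht) (z : G) (p : V) (h : d p (z ^ 2 • p) ≤ d p (z • p)) (N : ℕ) :
    d p (z ^ N • p) ≤ d p (z • p) ∧ d p (z ^ (N + 1) • p) ≤ d p (z • p) := by
  induction N with
  | zero =>
    refine ⟨?_, ?_⟩
    · rw [pow_zero, one_smul, hM.tree.self]
      exact Nat.zero_le _
    · rw [zero_add, pow_one]
  | succ N ih =>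
    refine ⟨ih.2, ?_⟩
    have h3 := (rule hM z p p N).2.2
    rw [show N + 1 + 1 = N + 2 from rfl]
    omega

private theorem ht_pow (hM : MA G d ht) (z : G) (p : V) (N : ℕ) :
    ht (z ^ N • p) - ht p = N * (ht (z • p) - ht p) := by
  induction N with
  | zero => simp
  | succ N ih =>
    have h1 := hM.ht_smul (z ^ N) (z • p) p
    rw [smul_smul, ← pow_succ] at h1
    push_cast
    linarith

private theorem fix_of_le (hM : MA G d ht) (z : G) (p : V) (h : d p (z ^ 2 • p) ≤ d p (z • p)) : ∃ m : V, z • m = m := by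
  have he : ht (z • p) - ht p = 0 := by
    by_contra hne
    have h1 : (1 : ℤ) ≤ |ht (z • p) - ht p| := Int.one_le_abs hne
    have h2 := hM.ht_le (z ^ (d p (z • p) + 1) • p) p
    rw [ht_pow hM, abs_mul, hM.tree.symm (z ^ (d p (z • p) + 1) • p) p] at h2
    have h3 := (bdd hM z p h (d p (z • p))).2
    have h4 : |((d p (z • p) + 1 : ℕ) : ℤ)| = (d p (z • p) : ℤ) + 1 := by
      rw [abs_of_nonneg (by positivity)]
      push_cast
      rfl
    rw [h4] at h2
    have h5 : ((d p (z ^ (d p (z • p) + 1) • p) : ℕ) : ℤ) ≤ d p (z • p) := by exact_mod_cast h3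
    nlinarith
  have hp := hM.par p (z • p)
  have h0 : ht p - ht (z • p) = 0 := by linarith
  rw [h0, sub_zero] at hp
  have hp' : Even (d p (z • p)) := by exact_mod_cast hp
  obtain ⟨r, hr⟩ := hp'
  obtain ⟨m, hm1, hm2⟩ := hM.tree.geo p (z • p) r (by omega)
  have hm2' : d m (z • p) = r := by omega
  have e1 : d (z • m) (z • p) = r := by
    rw [hM.iso, hM.tree.symm, hm1]
  have e2 : d (z • m) (z ^ 2 • p) = r := by
    rw [pow_two, mul_smul, hM.iso]
    exact hm2'
  have e3 : d (z • p) (z ^ 2 • p) = d p (z • p) := by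
    rw [pow_two, mul_smul, hM.iso]
  have f1 := four' hM.tree (z • m) p (z • p) (z ^ 2 • p)
  have f2 := four' hM.tree m (z • m) p (z • p)
  have s1 := hM.tree.symm m p
  have s2 := hM.tree.symm p (z • m)
  have h6 : d m (z • m) = 0 := by omega
  exact ⟨m, (hM.tree.eq _ _ h6).symm⟩

private theorem lt_of_nofix (hM : MA G d ht) (z : G) (hz : ∀ v : V, z • v ≠ v) (p : V) :
    d p (z • p) < d p (z ^ 2 • p) := by
  by_contra h
  obtain ⟨m, hm⟩ := fix_of_le hM z p (not_lt.1 h)
  exact hz m hm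

/-- the growth of the orbit of an element without fixed points -/
private theorem growth (hM : MA G d ht) (z : G) (p : V) (h : d p (z • p) < d p (z ^ 2 • p)) (N : ℕ) :
    d p (z ^ N • p) < d p (z ^ (N + 1) • p) + (d p (z ^ 2 • p) - d p (z • p)) ∧
    d p (z ^ (N + 1) • p) = d p (z • p) + N * (d p (z ^ 2 • p) - d p (z • p)) := by
  have h2 : d p (z ^ 2 • p) ≤ 2 * d p (z • p) := by
    have h3 := hM.tree.tri p (z • p) (z ^ 2 • p)
    have h4 : d (z • p) (z ^ 2 • p) = d p (z • p) := by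
      rw [pow_two, mul_smul, hM.iso]
    omega
  induction N with
  | zero =>
    rw [pow_zero, one_smul, hM.tree.self, zero_add, pow_one, zero_mul, add_zero]
    omega
  | succ N ih =>
    have h3 := rule hM z p p N
    rw [show N + 1 + 1 = N + 2 from rfl]
    have h4 : d p (z ^ (N + 2) • p) = d p (z ^ (N + 1) • p) + (d p (z ^ 2 • p) - d p (z • p)) := by omega
    refine ⟨by omega, ?_⟩
    rw [h4, ih.2, add_mul, one_mul]
    omega

/-- an element with a power which fixes a vertex fixes a vertex -/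
theorem ell_pow (hM : MA G d ht) (g : G) (k : ℕ) (hk : k ≠ 0) (v : V) (h : g ^ k • v = v) : ∃ u : V, g • u = u := by
  by_contra hn
  push Not at hn
  have h1 := lt_of_nofix hM g hn v
  obtain ⟨m, rfl⟩ := Nat.exists_eq_succ_of_ne_zero hk
  have h2 := (growth hM g v h1 m).2
  rw [show m.succ = m + 1 from rfl] at h
  rw [h, hM.tree.self] at h2
  have h3 : d v (g • v) = 0 := by omega
  exact hn v (hM.tree.eq _ _ h3).symm

/-- distances to a far point of the orbit -/
private theorem ray (hM : MA G d ht) (z : G) (p : V) (h : d p (z • p) < d p (z ^ 2 • p)) (u : V) :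
    ∃ M : ℕ, ∀ N, M ≤ N → d u (z ^ (N + 1) • p) = d u (z ^ N • p) + (d p (z ^ 2 • p) - d p (z • p)) := by
  by_cases h1 : ∃ M, d u (z ^ M • p) < d u (z ^ (M + 1) • p) + (d p (z ^ 2 • p) - d p (z • p))
  · obtain ⟨M, hM1⟩ := h1
    have h2 : ∀ N, d u (z ^ (M + N) • p) < d u (z ^ (M + N + 1) • p) + (d p (z ^ 2 • p) - d p (z • p)) ∧
        d u (z ^ (M + N + 2) • p) = d u (z ^ (M + N + 1) • p) + (d p (z ^ 2 • p) - d p (z • p)) := by
      intro N
      induction N with
      | zero =>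
        have h3 := rule hM z p u M
        rw [add_zero]
        refine ⟨hM1, by omega⟩
      | succ N ih =>
        have h3 := rule hM z p u (M + (N + 1))
        have e1 : M + (N + 1) = M + N + 1 := by ring
        rw [e1] at h3 ⊢
        have e2 : M + N + 1 + 1 = M + N + 2 := rfl
        rw [e2] at h3 ⊢
        have h4 : d u (z ^ (M + N + 1) • p) < d u (z ^ (M + N + 2) • p) + (d p (z ^ 2 • p) - d p (z • p)) := by omega
        refine ⟨h4, by omega⟩
    refine ⟨M + 1, fun N hN => ?_⟩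
    obtain ⟨k, rfl⟩ := Nat.exists_eq_add_of_le hN
    have h3 := (h2 k).2
    have e1 : M + 1 + k + 1 = M + k + 2 := by ring
    have e2 : M + 1 + k = M + k + 1 := by ring
    rw [e1, e2]
    exact h3
  · exfalso
    push Not at h1
    have h2 : ∀ M, d u (z ^ M • p) + M * (d p (z ^ 2 • p) - d p (z • p)) ≤ d u (z ^ 0 • p) := by
      intro M
      induction M with
      | zero => simp
      | succ M ih =>
        have h3 := h1 M
        rw [add_mul, one_mul]
        omega
    have h3 := h2 (d u (z ^ 0 • p) + 1)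
    have h4 : 1 ≤ d p (z ^ 2 • p) - d p (z • p) := by omega
    have h5 := Nat.mul_le_mul_left (d u (z ^ 0 • p) + 1) h4
    omega

/-- the Busemann function -/
private theorem buse (hM : MA G d ht) (z : G) (p : V) (h : d p (z • p) < d p (z ^ 2 • p)) :
    ∃ (t : ℤ) (B : V → ℤ), 0 < t ∧ ∀ u, ∃ M : ℕ, ∀ N, M ≤ N → (d u (z ^ N • p) : ℤ) = N * t + B u := by
  have h1 : ∀ u, ∃ b : ℤ, ∃ M : ℕ, ∀ N, M ≤ N →
      (d u (z ^ N • p) : ℤ) = N * ((d p (z ^ 2 • p) : ℤ) - d p (z • p)) + b := by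
    intro u
    obtain ⟨M, hM1⟩ := ray hM z p h u
    refine ⟨d u (z ^ M • p) - M * ((d p (z ^ 2 • p) : ℤ) - d p (z • p)), M, fun N hN => ?_⟩
    obtain ⟨k, rfl⟩ := Nat.exists_eq_add_of_le hN
    induction k with
    | zero =>
      rw [add_zero]
      ring
    | succ k ih =>
      have h2 := hM1 (M + k) (Nat.le_add_right _ _)
      have h3 : (d u (z ^ (M + k + 1) • p) : ℤ) = d u (z ^ (M + k) • p) + ((d p (z ^ 2 • p) : ℤ) - d p (z • p)) := by
        omega
      have h4 := ih (Nat.le_add_right _ _)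
      rw [show M + (k + 1) = M + k + 1 from rfl, h3, h4]
      push_cast
      ring
  choose B hB using h1
  exact ⟨(d p (z ^ 2 • p) : ℤ) - d p (z • p), B, by omega, hB⟩

theorem bus (hM : MA G d ht) [Nonempty V] (z : G) (hz : ∀ v : V, z • v ≠ v) :
    ∃ b : G → ℤ, (∀ g h : G, z * g = g * z → z * h = h * z → b (g * h) = b g + b h) ∧ b z ≠ 0 ∧
      ∀ g : G, z * g = g * z → (b g = 0 ↔ ∃ v : V, g • v = v) := by
  obtain ⟨p⟩ := (inferInstance : Nonempty V)
  obtain ⟨t, B, ht0, hB⟩ := buse hM z p (lt_of_nofix hM z hz p)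
  have hcom : ∀ (g : G), z * g = g * z → ∀ N : ℕ, z ^ N * g = g * z ^ N := by
    intro g hg N
    exact ((show Commute z g from hg).pow_left N).eq
  have hmove : ∀ (g : G), z * g = g * z → ∀ (u : V) (N : ℕ), d (g • u) (z ^ N • p) = d u (z ^ N • g⁻¹ • p) := by
    intro g hg u N
    have h1 : z ^ N • p = g • z ^ N • g⁻¹ • p := by
      rw [smul_smul, smul_smul, ← hcom g hg N, mul_assoc, mul_inv_cancel, mul_one]
    rw [h1, hM.iso]
  -- the differences of `B` are invariant
  have hinv : ∀ (g : G), z * g = g * z → ∀ u v : V, B (g • u) + B v = B (g • v) + B u := by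
    intro g hg u v
    obtain ⟨M1, h1⟩ := hB u
    obtain ⟨M2, h2⟩ := hB v
    obtain ⟨M3, h3⟩ := hB (g • u)
    obtain ⟨M4, h4⟩ := hB (g • v)
    obtain ⟨N, hN⟩ : ∃ N : ℕ, N = M1 + M2 + M3 + M4 + d u v + d p (g⁻¹ • p) + (B u).natAbs + (B v).natAbs +
      (B (g • u)).natAbs + (B (g • v)).natAbs + 1 := ⟨_, rfl⟩
    have a1 := h1 N (by omega)
    have a2 := h2 N (by omega)
    have a3 := h3 N (by omega)
    have a4 := h4 N (by omega)
    rw [hmove g hg] at a3 a4
    have hNt : (N : ℤ) ≤ N * t := by nlinarith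
    have e1 : d (z ^ N • p) (z ^ N • g⁻¹ • p) = d p (g⁻¹ • p) := hM.iso _ _ _
    have s1 := hM.tree.symm (z ^ N • g⁻¹ • p) (z ^ N • p)
    have s2 := hM.tree.symm (z ^ N • p) v
    have s3 := hM.tree.symm (z ^ N • g⁻¹ • p) v
    have f1 := four' hM.tree u (z ^ N • p) v (z ^ N • g⁻¹ • p)
    have f2 := four' hM.tree u (z ^ N • g⁻¹ • p) v (z ^ N • p)
    omega
  refine ⟨fun g => B (g • p) - B p, ?_, ?_, ?_⟩
  · intro g h hg hh
    have h1 := hinv g hg (h • p) p
    show B ((g * h) • p) - B p = (B (g • p) - B p) + (B (h • p) - B p)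
    rw [mul_smul]
    linarith
  · obtain ⟨M1, h1⟩ := hB (z • p)
    obtain ⟨M2, h2⟩ := hB p
    have a1 := h1 (M1 + M2 + 1) (by omega)
    have a2 := h2 (M1 + M2) (by omega)
    rw [pow_succ', mul_smul, hM.iso] at a1
    push_cast at a1 a2
    show B (z • p) - B p ≠ 0
    intro h0
    nlinarith
  · intro g hg
    constructor
    · intro h0
      have h0' : B (g • p) = B p := by
        have : B (g • p) - B p = 0 := h0
        linarith
      have h0'' : B (g⁻¹ • p) = B p := by
        have h1 := hinv g hg (g⁻¹ • p) p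
        rw [smul_inv_smul] at h1
        linarith
      obtain ⟨M1, h1⟩ := hB p
      obtain ⟨M2, h2⟩ := hB (g • p)
      obtain ⟨M3, h3⟩ := hB (g⁻¹ • p)
      obtain ⟨N, hN⟩ : ∃ N : ℕ, N = M1 + M2 + M3 + 2 * d p (g • p) + (B p).natAbs + 1 := ⟨_, rfl⟩
      have a1 := h1 N (by omega)
      have a2 := h2 N (by omega)
      have a3 := h3 N (by omega)
      rw [h0'] at a2
      rw [h0''] at a3
      have hNt : (N : ℤ) ≤ N * t := by nlinarith
      obtain ⟨q, hq⟩ : ∃ q, q = z ^ N • p := ⟨_, rfl⟩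
      rw [← hq] at a1 a2 a3
      have b1 : d p (g • q) = d p q := by
        have e1 : d p (g • q) = d (g⁻¹ • p) q := by
          rw [← hM.iso g⁻¹ p (g • q), inv_smul_smul]
        omega
      have b2 : d (g • p) q = d p q := by omega
      have b3 : d q (g • q) = d p (g • p) := by
        rw [hq, smul_smul, ← hcom g hg N, mul_smul, hM.iso]
      have hpar := hM.tree.par p q (g • p)
      rw [hM.tree.symm q (g • p), b2] at hpar
      have hpar' : Even (d p (g • p)) := by
        obtain ⟨r, hr⟩ := hpar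
        exact ⟨r - d p q, by omega⟩
      obtain ⟨r, hr⟩ := hpar'
      have hD : 2 * d p (g • p) ≤ d p q := by omega
      obtain ⟨m, hm1, hm2⟩ := hM.tree.geo p q r (by omega)
      have c1 : d (g • m) (g • p) = r := by
        rw [hM.iso, hM.tree.symm, hm1]
      have c2 : d (g • m) (g • q) = d p q - r := by
        rw [hM.iso, hm2]
      have c3 : d (g • p) (g • q) = d p q := hM.iso _ _ _
      have f1 := four' hM.tree m (g • p) p q
      have f2 := four' hM.tree (g • m) q (g • p) (g • q)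
      have f3 := four' hM.tree m (g • m) (g • p) q
      have s1 := hM.tree.symm m p
      have s2 := hM.tree.symm (g • p) p
      have s3 := hM.tree.symm q (g • p)
      have h6 : d m (g • m) = 0 := by omega
      exact ⟨m, (hM.tree.eq _ _ h6).symm⟩
    · rintro ⟨v, hv⟩
      have h1 := hinv g hg v p
      rw [hv] at h1
      show B (g • p) - B p = 0
      linarith

private theorem growth_int (hM : MA G d ht) (z : G) (p : V) (h : d p (z • p) < d p (z ^ 2 • p)) :
    ∃ t : ℤ, 0 < t ∧ ∀ n : ℤ, |n| * t ≤ d p (z ^ n • p) ∧ (d p (z ^ n • p) : ℤ) ≤ |n| * t + d p (z • p) := by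
  refine ⟨(d p (z ^ 2 • p) : ℤ) - d p (z • p), by omega, ?_⟩
  have h2 : d p (z ^ 2 • p) ≤ 2 * d p (z • p) := by
    have h3 := hM.tree.tri p (z • p) (z ^ 2 • p)
    have h4 : d (z • p) (z ^ 2 • p) = d p (z • p) := by
      rw [pow_two, mul_smul, hM.iso]
    omega
  have h1 : ∀ n : ℕ, (n : ℤ) * ((d p (z ^ 2 • p) : ℤ) - d p (z • p)) ≤ d p (z ^ n • p) ∧
      (d p (z ^ n • p) : ℤ) ≤ n * ((d p (z ^ 2 • p) : ℤ) - d p (z • p)) + d p (z • p) := by
    intro n
    cases n with
    | zero =>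
      rw [pow_zero, one_smul, hM.tree.self]
      simp
    | succ n =>
      have h3 := (growth hM z p h n).2
      have h4 : (d p (z ^ (n + 1) • p) : ℤ) = d p (z • p) + n * ((d p (z ^ 2 • p) : ℤ) - d p (z • p)) := by
        rw [h3]
        push_cast [Nat.cast_sub h.le]
        ring
      rw [h4]
      push_cast
      constructor
      · have h5 : (d p (z ^ 2 • p) : ℤ) ≤ 2 * d p (z • p) := by exact_mod_cast h2
        nlinarith
      · have h5 : (d p (z • p) : ℤ) < d p (z ^ 2 • p) := by exact_mod_cast h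
        nlinarith
  intro n
  rcases le_total 0 n with hn | hn
  · obtain ⟨m, rfl⟩ := Int.eq_ofNat_of_zero_le hn
    rw [zpow_natCast, abs_of_nonneg hn]
    exact h1 m
  · obtain ⟨m, hm⟩ := Int.eq_ofNat_of_zero_le (a := -n) (by omega)
    have e1 : d p (z ^ n • p) = d p (z ^ m • p) := by
      have e2 : n = -(m : ℤ) := by omega
      rw [e2, zpow_neg, zpow_natCast, ← hM.iso (z ^ m) p ((z ^ m)⁻¹ • p), smul_inv_smul, hM.tree.symm]
    rw [e1, abs_of_nonpos hn, hm]
    exact h1 m

private theorem conj_le (hM : MA G d ht) [Nonempty V] (z : G)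
    (hz : ∀ v : V, z • v ≠ v) (g : G) (i j : ℤ) (h : g * z ^ i * g⁻¹ = z ^ j) : |j| ≤ |i| := by
  obtain ⟨p⟩ := (inferInstance : Nonempty V)
  obtain ⟨t, ht0, hgr⟩ := growth_int hM z p (lt_of_nofix hM z hz p)
  by_contra hlt
  push Not at hlt
  obtain ⟨N, hN⟩ : ∃ N : ℕ, N = d p (z • p) + 2 * d p (g⁻¹ • p) + 1 := ⟨_, rfl⟩
  have h1 : g * z ^ (i * N) * g⁻¹ = z ^ (j * N) := by
    rw [zpow_mul, zpow_mul, ← h, conj_zpow]
  have h2 : d p (z ^ (j * N) • p) = d (g⁻¹ • p) (z ^ (i * N) • g⁻¹ • p) := by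
    rw [← h1, mul_smul, mul_smul, ← hM.iso g⁻¹ p, inv_smul_smul]
  have h3 := hM.tree.tri (g⁻¹ • p) p (z ^ (i * N) • g⁻¹ • p)
  have h4 := hM.tree.tri p (z ^ (i * N) • p) (z ^ (i * N) • g⁻¹ • p)
  have h5 : d (z ^ (i * N) • p) (z ^ (i * N) • g⁻¹ • p) = d p (g⁻¹ • p) := hM.iso _ _ _
  have s1 := hM.tree.symm (g⁻¹ • p) p
  have h6 := (hgr (j * N)).1
  have h7 := (hgr (i * N)).2
  rw [abs_mul, abs_of_nonneg (show (0 : ℤ) ≤ N by positivity)] at h6 h7
  have h8 : |i| * N * t + N * t ≤ |j| * N * t := by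
    have h9 : |i| + 1 ≤ |j| := hlt
    have h10 : (0 : ℤ) ≤ N * t := by positivity
    nlinarith
  have h9 : (N : ℤ) ≤ N * t := by nlinarith
  have h10 : (d p (z ^ (j * N) • p) : ℤ) ≤ d p (z ^ (i * N) • p) + 2 * d p (g⁻¹ • p) := by omega
  omega

theorem conj_abs (hM : MA G d ht) [Nonempty V] (z : G)
    (hz : ∀ v : V, z • v ≠ v) (g : G) (i j : ℤ) (h : g * z ^ i * g⁻¹ = z ^ j) : |i| = |j| := by
  refine le_antisymm ?_ (conj_le hM z hz g i j h)
  refine conj_le hM z hz g⁻¹ j i ?_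
  rw [← h]
  group

end Pool.Agent.H18.RG
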