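import Pool.Agent.H18.RG.Semi
import Pool.Agent.H18.RG.ClsA

/-!
# [RG5] Right-angled Artin groups

`Raag Γ`: generators the vertices of `Γ`, adjacent vertices commute. Induction on the number of vertices. Let `v` be a vertex, `Γ'` the graph
on the other vertices, `H = Raag Γ'`, `H0` the subgroup generated by the neighbours of `v`. (1) `H0` is isolated: there is an endomorphism `ρ` of `H`
which fixes the neighbours of `v` and kills the other generators; it is the identity on `H0`, its range is `H0`; if `h ^ k ∈ H0` then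
`ρ h ^ k = ρ (h ^ k) = h ^ k`, so `ρ h = h` (`root`), `h ∈ H0`. So the action of `H` on `O = H ⧸ H0` has the property of `RR_semi`. (2) `Raag Γ` embeds in
`FreeGroup O ⋊ H`: `v ↦ of H0`, `w ↦ w`, with the left inverse `of (h H0) ↦ ι h * v * (ι h)⁻¹`, `h ↦ ι h`, `ι : H → Raag Γ` (well defined: `ι H0` commutes with
`v`). `SemidirectProduct.lift`. It is a left inverse because it is one on the generators (`PresentedGroup.ext`).
In `C`: the same with `semidirect_mem` and `Inherits.of_injective`.
-/

set_option autoImplicit false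

namespace Pool.Agent.H18.RG

open Pool.Agent.H98.FJ Pool.Agent.H50.GN

/-- the relations of a right-angled Artin group: adjacent vertices commute -/
def raagRels {V : Type} (Γ : SimpleGraph V) : Set (FreeGroup V) :=
  {r | ∃ a b : V, Γ.Adj a b ∧ r = FreeGroup.of a * FreeGroup.of b * (FreeGroup.of a)⁻¹ * (FreeGroup.of b)⁻¹}

/-- the right-angled Artin group of the graph `Γ` -/
abbrev Raag {V : Type} (Γ : SimpleGraph V) : Type := PresentedGroup (raagRels Γ)

/-- homomorphisms from a right-angled Artin group -/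
private theorem rel_one {V G : Type} [Group G] {Γ : SimpleGraph V} (f : V → G)
    (h : ∀ a b : V, Γ.Adj a b → f a * f b = f b * f a) :
    ∀ r ∈ raagRels Γ, FreeGroup.lift f r = 1 := by
  rintro r ⟨a, b, hab, rfl⟩
  rw [map_mul, map_mul, map_mul, map_inv, map_inv, FreeGroup.lift_apply_of, FreeGroup.lift_apply_of,
    h a b hab]
  group

private theorem of_comm {V : Type} {Γ : SimpleGraph V} {a b : V} (h : Γ.Adj a b) :
    (PresentedGroup.of a : Raag Γ) * PresentedGroup.of b = PresentedGroup.of b * PresentedGroup.of a := by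
  have h1 : PresentedGroup.mk (raagRels Γ)
      (FreeGroup.of a * FreeGroup.of b * (FreeGroup.of a)⁻¹ * (FreeGroup.of b)⁻¹) = 1 :=
    PresentedGroup.one_of_mem ⟨a, b, h, rfl⟩
  rw [map_mul, map_mul, map_mul, map_inv, map_inv, mul_inv_eq_one, mul_inv_eq_iff_eq_mul] at h1
  exact h1

/-- the subgroup generated by the neighbours of `v` -/
private def nb {V : Type} (Γ : SimpleGraph V) (v : V) : Subgroup (Raag (Γ.induce {w | w ≠ v})) :=
  Subgroup.closure {x | ∃ w : ↑({w | w ≠ v} : Set V), Γ.Adj v w.1 ∧ x = PresentedGroup.of w}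

private theorem of_mem_nb {V : Type} {Γ : SimpleGraph V} {v : V} {w : ↑({w | w ≠ v} : Set V)}
    (h : Γ.Adj v w.1) : (PresentedGroup.of w : Raag (Γ.induce {w | w ≠ v})) ∈ nb Γ v :=
  Subgroup.subset_closure ⟨w, h, rfl⟩

private theorem exists_retr {V : Type} (Γ : SimpleGraph V) (v : V) :
    ∃ ρ : Raag (Γ.induce {w | w ≠ v}) →* Raag (Γ.induce {w | w ≠ v}),
      (∀ x, ρ x ∈ nb Γ v) ∧ ∀ x ∈ nb Γ v, ρ x = x := by
  classical
  let f : ↑({w | w ≠ v} : Set V) → Raag (Γ.induce {w | w ≠ v}) := fun w =>
    if Γ.Adj v w.1 then PresentedGroup.of w else 1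
  have hf : ∀ r ∈ raagRels (Γ.induce {w | w ≠ v}), FreeGroup.lift f r = 1 := by
    apply rel_one
    intro a b hab
    by_cases ha : Γ.Adj v a.1
    · by_cases hb : Γ.Adj v b.1
      · simp only [f, if_pos ha, if_pos hb]
        exact of_comm hab
      · simp only [f, if_neg hb, mul_one, one_mul]
    · simp only [f, if_neg ha, mul_one, one_mul]
  refine ⟨PresentedGroup.toGroup hf, ?_, ?_⟩
  · intro x
    have h1 : x ∈ (nb Γ v).comap (PresentedGroup.toGroup hf) := by
      apply PresentedGroup.generated_by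
      intro w
      rw [Subgroup.mem_comap, PresentedGroup.toGroup.of]
      by_cases hw : Γ.Adj v w.1
      · simp only [f, if_pos hw]
        exact of_mem_nb hw
      · simp only [f, if_neg hw]
        exact one_mem _
    exact h1
  · intro x hx
    have h1 : nb Γ v ≤ (PresentedGroup.toGroup hf).eqLocus (MonoidHom.id _) := by
      unfold nb
      rw [Subgroup.closure_le]
      rintro _ ⟨w, hw, rfl⟩
      show PresentedGroup.toGroup hf (PresentedGroup.of w) = PresentedGroup.of w
      rw [PresentedGroup.toGroup.of]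
      simp only [f, if_pos hw]
    exact h1 hx

/-- the inclusion of the subgroup generated by the other vertices -/
private theorem exists_incl {V : Type} (Γ : SimpleGraph V) (v : V) :
    ∃ ι : Raag (Γ.induce {w | w ≠ v}) →* Raag Γ,
      (∀ w : ↑({w | w ≠ v} : Set V), ι (PresentedGroup.of w) = PresentedGroup.of w.1) ∧
      ∀ x ∈ nb Γ v, ι x * PresentedGroup.of v = PresentedGroup.of v * ι x := by
  let f : ↑({w | w ≠ v} : Set V) → Raag Γ := fun w => PresentedGroup.of w.1
  have hf : ∀ r ∈ raagRels (Γ.induce {w | w ≠ v}), FreeGroup.lift f r = 1 := by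
    apply rel_one
    intro a b hab
    exact of_comm hab
  refine ⟨PresentedGroup.toGroup hf, fun w => PresentedGroup.toGroup.of hf, ?_⟩
  intro x hx
  have h1 : nb Γ v ≤ (Subgroup.centralizer {(PresentedGroup.of v : Raag Γ)}).comap
      (PresentedGroup.toGroup hf) := by
    unfold nb
    rw [Subgroup.closure_le]
    rintro _ ⟨w, hw, rfl⟩
    show PresentedGroup.toGroup hf (PresentedGroup.of w) ∈
      Subgroup.centralizer {(PresentedGroup.of v : Raag Γ)}
    rw [PresentedGroup.toGroup.of, Subgroup.mem_centralizer_singleton_iff]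
    exact (of_comm hw).symm
  have h2 := h1 hx
  rw [Subgroup.mem_comap, Subgroup.mem_centralizer_singleton_iff] at h2
  exact h2

theorem raag_step {V : Type} (Γ : SimpleGraph V) (v : V)
    (h : RR (Raag (Γ.induce {w | w ≠ v}))) :
    ∃ (O : Type) (σ : Raag (Γ.induce {w | w ≠ v}) →* Equiv.Perm O)
      (φ : Raag Γ →* FreeGroup O ⋊[permAct σ] Raag (Γ.induce {w | w ≠ v})),
      (∀ (q : Raag (Γ.induce {w | w ≠ v})) (k : ℕ) (a : O), k ≠ 0 → σ (q ^ k) a = a → σ q a = a) ∧
        Function.Injective φ := by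
  classical
  obtain ⟨ρ, hρ1, hρ2⟩ := exists_retr Γ v
  obtain ⟨ι, hι1, hι2⟩ := exists_incl Γ v
  have hiso : ∀ (x : Raag (Γ.induce {w | w ≠ v})) (k : ℕ), k ≠ 0 → x ^ k ∈ nb Γ v → x ∈ nb Γ v := by
    intro x k hk hx
    have h1 := hρ2 _ hx
    rw [map_pow] at h1
    have h2 := h.root _ _ k hk h1
    rw [← h2]
    exact hρ1 x
  let O : Type := Raag (Γ.induce {w | w ≠ v}) ⧸ nb Γ v
  let σ : Raag (Γ.induce {w | w ≠ v}) →* Equiv.Perm O :=
    MulAction.toPermHom (Raag (Γ.induce {w | w ≠ v})) O
  have hσ : ∀ q g : Raag (Γ.induce {w | w ≠ v}),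
      σ q (QuotientGroup.mk g : O) = (QuotientGroup.mk (q * g) : O) := fun _ _ => rfl
  let f : V → FreeGroup O ⋊[permAct σ] Raag (Γ.induce {w | w ≠ v}) := fun w =>
    if hw : w ≠ v then SemidirectProduct.inr (PresentedGroup.of (⟨w, hw⟩ : ↑({w | w ≠ v} : Set V)))
    else SemidirectProduct.inl (FreeGroup.of (QuotientGroup.mk 1 : O))
  have hf1 : ∀ w : ↑({w | w ≠ v} : Set V), f w.1 = SemidirectProduct.inr (PresentedGroup.of w) := by
    rintro ⟨w, hw⟩
    have hw' : w ≠ v := hw
    simp only [f]
    rw [dif_pos hw']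
  have hf2 : f v = SemidirectProduct.inl (FreeGroup.of (QuotientGroup.mk 1 : O)) := by
    simp only [f]
    rw [dif_neg (fun h => h rfl)]
  have hvb : ∀ b : ↑({w | w ≠ v} : Set V), Γ.Adj v b.1 → f v * f b.1 = f b.1 * f v := by
    intro b hb
    rw [hf1 b, hf2]
    have h1 := SemidirectProduct.inl_aut (φ := permAct σ)
      (PresentedGroup.of b : Raag (Γ.induce {w | w ≠ v})) (FreeGroup.of (QuotientGroup.mk 1 : O))
    rw [permAct_of, hσ, mul_one] at h1
    have h2 : (QuotientGroup.mk (PresentedGroup.of b : Raag (Γ.induce {w | w ≠ v})) : O) =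
        QuotientGroup.mk 1 := by
      rw [QuotientGroup.eq, mul_one]
      exact inv_mem (of_mem_nb hb)
    rw [h2, map_inv, eq_mul_inv_iff_mul_eq] at h1
    exact h1
  have hrel : ∀ r ∈ raagRels Γ, FreeGroup.lift f r = 1 := by
    apply rel_one
    intro a b hab
    by_cases ha : a = v
    · subst ha
      have hb : b ≠ a := hab.ne'
      exact hvb ⟨b, hb⟩ hab
    · by_cases hb : b = v
      · subst hb
        exact (hvb ⟨a, ha⟩ hab.symm).symm
      · have h1 := hf1 ⟨a, ha⟩
        have h2 := hf1 ⟨b, hb⟩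
        simp only at h1 h2
        rw [h1, h2, ← map_mul, ← map_mul]
        congr 1
        exact of_comm (Γ := Γ.induce {w | w ≠ v}) hab
  refine ⟨O, σ, PresentedGroup.toGroup hrel, ?_, ?_⟩
  · intro q k a hk ha
    obtain ⟨g, rfl⟩ := QuotientGroup.mk_surjective a
    rw [hσ, QuotientGroup.eq] at ha
    rw [hσ, QuotientGroup.eq]
    have h1 : (q * g)⁻¹ * g = (g⁻¹ * q * g)⁻¹ := by group
    have h2 : (q ^ k * g)⁻¹ * g = ((g⁻¹ * q * g) ^ k)⁻¹ := by
      have h3 : (g⁻¹ * q * g) ^ k = g⁻¹ * q ^ k * g := by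
        have := conj_pow (i := k) (a := g⁻¹) (b := q)
        rw [inv_inv] at this
        exact this
      rw [h3]
      group
    rw [h2, inv_mem_iff] at ha
    rw [h1, inv_mem_iff]
    exact hiso _ k hk ha
  · let F : O → Raag Γ := fun o => Quotient.liftOn' o
      (fun g => ι g * PresentedGroup.of v * (ι g)⁻¹) (by
        intro a b hab
        rw [QuotientGroup.leftRel_apply] at hab
        have h1 := hι2 _ hab
        have h2 : b = a * (a⁻¹ * b) := (mul_inv_cancel_left a b).symm
        show ι a * PresentedGroup.of v * (ι a)⁻¹ = ι b * PresentedGroup.of v * (ι b)⁻¹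
        rw [h2, map_mul ι a (a⁻¹ * b), mul_assoc (ι a) (ι (a⁻¹ * b)) (PresentedGroup.of v), h1]
        group)
    have hF : ∀ g : Raag (Γ.induce {w | w ≠ v}), F (QuotientGroup.mk g : O) =
        ι g * PresentedGroup.of v * (ι g)⁻¹ := fun _ => rfl
    let ψ : FreeGroup O ⋊[permAct σ] Raag (Γ.induce {w | w ≠ v}) →* Raag Γ :=
      SemidirectProduct.lift (FreeGroup.lift F) ι (by
        intro g
        apply FreeGroup.ext_hom
        intro o
        obtain ⟨x, rfl⟩ := QuotientGroup.mk_surjective o
        show FreeGroup.lift F (permAct σ g (FreeGroup.of (QuotientGroup.mk x : O))) =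
          ι g * FreeGroup.lift F (FreeGroup.of (QuotientGroup.mk x : O)) * (ι g)⁻¹
        rw [permAct_of, hσ, FreeGroup.lift_apply_of, FreeGroup.lift_apply_of, hF, hF, map_mul]
        group)
    have hψ : ψ.comp (PresentedGroup.toGroup hrel) = MonoidHom.id _ := by
      apply PresentedGroup.ext
      intro w
      rw [MonoidHom.comp_apply, PresentedGroup.toGroup.of, MonoidHom.id_apply]
      by_cases hw : w = v
      · subst hw
        rw [hf2]
        show SemidirectProduct.lift (FreeGroup.lift F) ι _ _ = _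
        rw [SemidirectProduct.lift_inl, FreeGroup.lift_apply_of, hF, map_one]
        group
      · have h1 := hf1 ⟨w, hw⟩
        simp only at h1
        rw [h1]
        show SemidirectProduct.lift (FreeGroup.lift F) ι _ _ = _
        rw [SemidirectProduct.lift_inr, hι1]
    intro x y hxy
    have h1 := congrArg ψ hxy
    have h2 : ∀ z, ψ (PresentedGroup.toGroup hrel z) = z := fun z => DFunLike.congr_fun hψ z
    rwa [h2, h2] at h1

theorem raag_RR {C : (G : Type) → [Group G] → Prop} (hC : Inherits C) (hE : Extension C) {V : Type} [Finite V]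
    (Γ : SimpleGraph V) : WR C (Raag Γ) := by
  have key : ∀ (n : ℕ) (V : Type) [Finite V] (Γ : SimpleGraph V), Nat.card V = n → WR C (Raag Γ) := by
    intro n
    induction n using Nat.strong_induction_on with
    | _ n ih =>
      intro V _ Γ hn
      by_cases hV : Nonempty V
      · obtain ⟨v⟩ := hV
        have hlt : Nat.card ↑({w | w ≠ v} : Set V) < n := by
          rw [← hn]
          exact Finite.card_subtype_lt (p := fun w => w ∈ ({w | w ≠ v} : Set V)) (x := v)
            (fun h => h rfl)
        have h1 := ih _ hlt ↑({w | w ≠ v} : Set V) (Γ.induce {w | w ≠ v}) rfl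
        obtain ⟨O, σ, φ, hσ, hφ⟩ := raag_step Γ v h1.1
        exact ⟨RR_inj φ hφ (RR_semi σ h1.1 hσ), hC.of_injective φ hφ (semidirect_mem hC hE σ h1.2)⟩
      · have hE' : IsEmpty V := not_nonempty_iff.1 hV
        have hs : ∀ x : Raag Γ, x = 1 := by
          intro x
          have h1 : x ∈ (⊥ : Subgroup (Raag Γ)) :=
            PresentedGroup.generated_by _ _ (fun j => (hE'.false j).elim) x
          exact h1
        have hsub : Subsingleton (Raag Γ) := ⟨fun x y => (hs x).trans (hs y).symm⟩
        refine ⟨⟨?_, ?_, ?_⟩, hC.fin _ inferInstance⟩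
        · intro x y k _ _
          exact Subsingleton.elim _ _
        · intro K A _ _ _ a _ g _
          exact Subsingleton.elim _ _
        · intro x hx
          exact (hx (hs x)).elim
  exact key _ V Γ rfl

end Pool.Agent.H18.RG
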