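import Pool.Agent.H18.RG.Ext

/-!
# [RG3] Free groups with permuted bases

`G = FreeGroup O ⋊ Q` acts on `V = FreeGroup O` by `(w, q) • u = w * q(u)`; `d = Pool.Agent.H76.SC.fd` (with `classical` decidable equality), the
word metric, a tree metric by `isTree_fd`; `q` preserves the length of reduced words (`FreeGroup.freeGroupCongr`, `toWord` of a mapped
word: an injective map of the letters maps reduced words to reduced words); `ht` = the sum of the exponents (`FreeGroup.lift` to
`Multiplicative ℤ`), invariant under `q`; `|ht u| ≤ length`, same parity (induction over the word of `u⁻¹ * v`). `f = SemidirectProduct.rightHom`.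
`hfree`: `(w, 1) • u = u` gives `w = 1`. `hiso`: multiply by an element of the free group on the left: `u = 1`; then `g = (1, q)`, `v` is a letter
`of a` or its inverse (length 1), `g ^ k • v = v` means `σ q ^ k a = a`.
-/

set_option autoImplicit false

namespace Pool.Agent.H18.RG

open Pool.Agent.H98.FJ Pool.Agent.H50.GN

/-- the action on the free group -/
@[reducible] private def semiAct {Q O : Type} [Group Q] (σ : Q →* Equiv.Perm O) :
    MulAction (FreeGroup O ⋊[permAct σ] Q) (FreeGroup O) where
  smul g u := g.left * permAct σ g.right u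
  one_smul u := by
    show (1 : FreeGroup O ⋊[permAct σ] Q).left * permAct σ (1 : FreeGroup O ⋊[permAct σ] Q).right u = u
    rw [SemidirectProduct.one_left, SemidirectProduct.one_right, map_one, one_mul]
    rfl
  mul_smul a b u := by
    show (a * b).left * permAct σ (a * b).right u = a.left * permAct σ a.right (b.left * permAct σ b.right u)
    rw [SemidirectProduct.mul_left, SemidirectProduct.mul_right, map_mul, map_mul, mul_assoc]
    rfl

/-- the sum of the exponents of a word -/
private def hs {O : Type} : List (O × Bool) → ℤ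
  | [] => 0
  | x :: L => cond x.2 1 (-1) + hs L

private theorem hs_bound {O : Type} : ∀ L : List (O × Bool), |hs L| ≤ L.length ∧ Even ((L.length : ℤ) - hs L)
  | [] => by simp [hs]
  | x :: L => by
      obtain ⟨h1, h2⟩ := hs_bound L
      rw [abs_le] at h1 ⊢
      rw [Int.even_iff] at h2 ⊢
      rw [List.length_cons]
      unfold hs
      push_cast
      cases x.2
      · simp only [cond_false]
        exact ⟨by constructor <;> omega, by omega⟩
      · simp only [cond_true]
        exact ⟨by constructor <;> omega, by omega⟩

/-- the sum of the exponents -/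
private def htH (O : Type) : FreeGroup O →* Multiplicative ℤ := FreeGroup.lift fun _ => Multiplicative.ofAdd 1

private def ht {O : Type} (u : FreeGroup O) : ℤ := Multiplicative.toAdd (htH O u)

private theorem ht_mul {O : Type} (u v : FreeGroup O) : ht (u * v) = ht u + ht v := by
  unfold ht
  rw [map_mul]
  rfl

private theorem ht_inv {O : Type} (u : FreeGroup O) : ht u⁻¹ = -ht u := by
  unfold ht
  rw [map_inv]
  rfl

private theorem ht_mk {O : Type} (L : List (O × Bool)) : ht (FreeGroup.mk L) = hs L := by
  unfold ht htH
  rw [FreeGroup.lift_mk]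
  induction L with
  | nil => rfl
  | cons x L ih =>
    rw [List.map_cons, List.prod_cons, toAdd_mul, ih]
    obtain ⟨a, b⟩ := x
    cases b <;> rfl

private theorem ht_word {O : Type} [DecidableEq O] (u : FreeGroup O) : ht u = hs u.toWord := by
  rw [← ht_mk, FreeGroup.mk_toWord]

private theorem ht_perm {Q O : Type} [Group Q] (σ : Q →* Equiv.Perm O) (q : Q) (u : FreeGroup O) :
    ht (permAct σ q u) = ht u := by
  have h : (htH O).comp (permAct σ q).toMonoidHom = htH O := by
    apply FreeGroup.ext_hom
    intro a
    show htH O (permAct σ q (FreeGroup.of a)) = htH O (FreeGroup.of a)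
    rw [permAct_of]
    unfold htH
    rw [FreeGroup.lift_apply_of, FreeGroup.lift_apply_of]
  have h1 := DFunLike.congr_fun h u
  unfold ht
  exact congrArg Multiplicative.toAdd h1

private theorem perm_word {Q O : Type} [Group Q] [DecidableEq O] (σ : Q →* Equiv.Perm O) (q : Q) (u : FreeGroup O) :
    (permAct σ q u).toWord = u.toWord.map fun x => (σ q x.1, x.2) := by
  have h1 : permAct σ q u = FreeGroup.mk (u.toWord.map fun x => (σ q x.1, x.2)) := by
    conv_lhs => rw [← FreeGroup.mk_toWord (x := u)]
    rfl
  have h2 : FreeGroup.IsReduced (u.toWord.map fun x => (σ q x.1, x.2)) := by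
    have h3 := FreeGroup.isReduced_toWord (x := u)
    unfold FreeGroup.IsReduced at h3 ⊢
    rw [List.isChain_map]
    refine h3.imp ?_
    intro a b hab h
    exact hab ((σ q).injective h)
  rw [h1, FreeGroup.toWord_mk, h2.reduce_eq]

theorem RR_semi {Q O : Type} [Group Q] (σ : Q →* Equiv.Perm O) (hQ : RR Q)
    (hσ : ∀ (q : Q) (k : ℕ) (a : O), k ≠ 0 → σ (q ^ k) a = a → σ q a = a) : RR (FreeGroup O ⋊[permAct σ] Q) := by
  classical
  have hs : ∀ (g : FreeGroup O ⋊[permAct σ] Q) (u : FreeGroup O),
      (semiAct σ).toSMul.smul g u = g.left * permAct σ g.right u := fun _ _ => rfl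
  have hd : ∀ (g : FreeGroup O ⋊[permAct σ] Q) (x y : FreeGroup O),
      ((semiAct σ).toSMul.smul g x)⁻¹ * (semiAct σ).toSMul.smul g y = permAct σ g.right (x⁻¹ * y) := by
    intro g x y
    rw [hs, hs, map_mul, map_inv]
    group
  have hM : @MA (FreeGroup O ⋊[permAct σ] Q) _ (FreeGroup O) (semiAct σ) Pool.Agent.H76.SC.fd ht := by
    refine @MA.mk (FreeGroup O ⋊[permAct σ] Q) _ (FreeGroup O) (semiAct σ) Pool.Agent.H76.SC.fd ht ?_ ?_ ?_ ?_ ?_
    · exact Pool.Agent.H76.SC.isTree_fd O
    · intro g x y
      show (((semiAct σ).toSMul.smul g x)⁻¹ * (semiAct σ).toSMul.smul g y).toWord.length = (x⁻¹ * y).toWord.length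
      rw [hd, perm_word, List.length_map]
    · intro g x y
      show ht ((semiAct σ).toSMul.smul g x) - ht ((semiAct σ).toSMul.smul g y) = ht x - ht y
      rw [hs, hs, ht_mul, ht_mul, ht_perm, ht_perm]
      ring
    · intro x y
      have h1 := (hs_bound (x⁻¹ * y).toWord).1
      rw [← ht_word, ht_mul, ht_inv] at h1
      have h2 : ht x - ht y = -(-ht x + ht y) := by ring
      rw [h2, abs_neg]
      exact h1
    · intro x y
      have h1 := (hs_bound (x⁻¹ * y).toWord).2
      rw [← ht_word, ht_mul, ht_inv] at h1
      rw [Int.even_iff] at h1 ⊢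
      show (((x⁻¹ * y).toWord.length : ℤ) - (ht x - ht y)) % 2 = 0
      omega
  refine @RR_of_tree (FreeGroup O ⋊[permAct σ] Q) (FreeGroup O) Q _ (semiAct σ) _ Pool.Agent.H76.SC.fd ht hM ⟨1⟩
    SemidirectProduct.rightHom hQ ?_ ?_
  · intro g hg v hv
    have h1 : g.right = 1 := hg
    have h2 : g.left * permAct σ g.right v = v := hv
    rw [h1, map_one] at h2
    have h3 : g.left = 1 := mul_eq_right.1 h2
    exact SemidirectProduct.ext h3 h1
  · intro g k u v hk hu hv huv
    have hu' : g.left * permAct σ g.right u = u := hu
    have hpow : ∀ j : ℕ, (g ^ j).left * permAct σ (g ^ j).right v = u * permAct σ (g.right ^ j) (u⁻¹ * v) := by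
      intro j
      induction j with
      | zero =>
        rw [pow_zero, pow_zero, SemidirectProduct.one_left, SemidirectProduct.one_right, map_one]
        show 1 * v = u * (u⁻¹ * v)
        group
      | succ j ih =>
        have h1 : (g ^ (j + 1)).left * permAct σ (g ^ (j + 1)).right v =
            g.left * permAct σ g.right ((g ^ j).left * permAct σ (g ^ j).right v) := by
          rw [pow_succ', SemidirectProduct.mul_left, SemidirectProduct.mul_right, map_mul, map_mul, mul_assoc]
          rfl
        have h2 : permAct σ (g.right ^ (j + 1)) (u⁻¹ * v) =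
            permAct σ g.right (permAct σ (g.right ^ j) (u⁻¹ * v)) := by
          rw [pow_succ', map_mul (permAct σ)]
          rfl
        rw [h1, ih, h2, map_mul (permAct σ g.right) u, ← mul_assoc, hu']
    have hv' : (g ^ k).left * permAct σ (g ^ k).right v = v := hv
    rw [hpow k] at hv'
    have hw : permAct σ (g.right ^ k) (u⁻¹ * v) = u⁻¹ * v := eq_inv_mul_of_mul_eq hv'
    have hlen : (u⁻¹ * v).toWord.length = 1 := huv
    obtain ⟨⟨a, b⟩, hab⟩ := List.length_eq_one_iff.1 hlen
    have hword := congrArg FreeGroup.toWord hw
    rw [perm_word, hab, List.map_cons, List.map_nil, List.cons.injEq] at hword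
    have ha : σ (g.right ^ k) a = a := (Prod.ext_iff.1 hword.1).1
    have ha' := hσ g.right k a hk ha
    have h7 : permAct σ g.right (u⁻¹ * v) = u⁻¹ * v := by
      apply FreeGroup.toWord_injective
      rw [perm_word, hab, List.map_cons, List.map_nil, ha']
    have h8 := hpow 1
    rw [pow_one, pow_one, h7] at h8
    show g.left * permAct σ g.right v = v
    rw [h8]
    group

end Pool.Agent.H18.RG
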